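import Mathlib

set_option autoImplicit false

/-!
Decidability of the reachability of accepting states for automata given by tables.
-/

namespace Pool.Agent.ElemPCP

/-- Transition of a table. -/
def dl (T : List (List ℕ)) (q a : ℕ) : ℕ := (T.getD q []).getD a 0

/-- States reachable in at most `k` steps. -/
def RL (N : ℕ) (T : List (List ℕ)) (q0 : ℕ) (k : ℕ) : List ℕ :=
  (fun l => l ++ l.flatMap fun q => (List.range N).map fun a => dl T q a)^[k] [q0]

theorem RL_succ (N : ℕ) (T : List (List ℕ)) (q0 : ℕ) (k : ℕ) :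
    RL N T q0 (k + 1) = RL N T q0 k ++ (RL N T q0 k).flatMap fun q =>
      (List.range N).map fun a => dl T q a := by
  simp only [RL, Function.iterate_succ_apply']

theorem mem_RL {N : ℕ} {T : List (List ℕ)} {q0 k q : ℕ} :
    q ∈ RL N T q0 k ↔ ∃ w : List ℕ, (∀ a ∈ w, a < N) ∧ w.length ≤ k ∧ w.foldl (dl T) q0 = q := by
  induction k generalizing q with
  | zero =>
      simp only [RL, Function.iterate_zero, id, List.mem_singleton, Nat.le_zero_eq,
        List.length_eq_zero_iff]
      constructor
      · rintro rfl; exact ⟨[], by simp, rfl, rfl⟩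
      · rintro ⟨w, -, rfl, rfl⟩; rfl
  | succ k ih =>
      rw [RL_succ, List.mem_append, List.mem_flatMap]
      constructor
      · rintro (h | ⟨p, hp, h⟩)
        · obtain ⟨w, h1, h2, h3⟩ := ih.1 h
          exact ⟨w, h1, by omega, h3⟩
        · obtain ⟨w, h1, h2, h3⟩ := ih.1 hp
          obtain ⟨a, ha, rfl⟩ := List.mem_map.1 h
          refine ⟨w ++ [a], ?_, by simp; omega, by simp [h3]⟩
          intro b hb
          rcases List.mem_append.1 hb with hb | hb
          · exact h1 b hb
          · rw [List.mem_singleton.1 hb]; simpa using ha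
      · rintro ⟨w, h1, h2, h3⟩
        rcases List.eq_nil_or_concat w with rfl | ⟨w', a, rfl⟩
        · exact Or.inl (ih.2 ⟨[], by simp, by simp, h3⟩)
        · refine Or.inr ⟨w'.foldl (dl T) q0, ih.2 ⟨w', fun b hb => h1 b (by simp [hb]), ?_, rfl⟩,
            List.mem_map.2 ⟨a, by simpa using h1 a (by simp), ?_⟩⟩
          · simp at h2; omega
          · rw [← h3]; simp

theorem dl_mem (T : List (List ℕ)) (q a : ℕ) : dl T q a ∈ insert 0 T.flatten.toFinset := by
  unfold dl
  rw [Finset.mem_insert, List.mem_toFinset, List.mem_flatten]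
  by_cases h1 : q < T.length
  · rw [List.getD_eq_getElem _ _ h1]
    by_cases h2 : a < T[q].length
    · rw [List.getD_eq_getElem _ _ h2]
      exact Or.inr ⟨T[q], List.getElem_mem h1, List.getElem_mem h2⟩
    · rw [List.getD_eq_default _ _ (by omega)]
      exact Or.inl rfl
  · have h2 : T.getD q [] = [] := List.getD_eq_default _ _ (by omega)
    rw [h2]
    simp

/-- Short words suffice. -/
theorem short_word (N : ℕ) (T : List (List ℕ)) (q0 : ℕ) (w : List ℕ) (hw : ∀ a ∈ w, a < N) :
    ∃ w' : List ℕ, (∀ a ∈ w', a < N) ∧ w'.length ≤ T.flatten.length + 2 ∧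
      w'.foldl (dl T) q0 = w.foldl (dl T) q0 := by
  induction hn : w.length using Nat.strong_induction_on generalizing w with
  | _ n ih =>
  by_cases hle : w.length ≤ T.flatten.length + 2
  · exact ⟨w, hw, hle, rfl⟩
  · push Not at hle
    -- the states after the prefixes of length 1, ..., |w|
    let f : Fin w.length → ℕ := fun i => (w.take (i + 1)).foldl (dl T) q0
    have hf : ∀ i ∈ (Finset.univ : Finset (Fin w.length)), f i ∈ insert 0 T.flatten.toFinset := by
      intro i _
      have hi := i.2
      simp only [f]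
      rw [List.take_succ_eq_append_getElem hi, List.foldl_append]
      exact dl_mem _ _ _
    have hcard : (insert 0 T.flatten.toFinset).card < (Finset.univ : Finset (Fin w.length)).card := by
      have h1 := Finset.card_insert_le 0 T.flatten.toFinset
      have h2 := List.toFinset_card_le T.flatten
      simp only [Finset.card_univ, Fintype.card_fin]
      omega
    obtain ⟨i, -, j, -, hij, hfij⟩ := Finset.exists_ne_map_eq_of_card_lt_of_maps_to hcard hf
    wlog hlt : i < j generalizing i j
    · exact this j i hij.symm hfij.symm (lt_of_le_of_ne (not_lt.1 hlt) hij.symm)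
    have hj := j.2
    have hlt' : (i : ℕ) < j := hlt
    have hshort : (w.take (i + 1) ++ w.drop (j + 1)).length < n := by
      rw [List.length_append, List.length_take, List.length_drop]
      omega
    obtain ⟨w', h1, h2, h3⟩ := ih _ hshort (w.take (i + 1) ++ w.drop (j + 1)) (by
      intro a ha
      rcases List.mem_append.1 ha with ha | ha
      · exact hw a (List.mem_of_mem_take ha)
      · exact hw a (List.mem_of_mem_drop ha)) rfl
    refine ⟨w', h1, h2, ?_⟩
    rw [h3, List.foldl_append]
    simp only [f] at hfij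
    rw [hfij, ← List.foldl_append, List.take_append_drop]

/-- Some word starting with `a0` is accepted. -/
def AccR (N a0 : ℕ) (p : List (List ℕ) × List ℕ) : Prop :=
  ∃ q ∈ RL N p.1 (dl p.1 0 a0) (p.1.flatten.length + 2), q ∈ p.2

theorem accR_iff (N a0 : ℕ) (p : List (List ℕ) × List ℕ) : AccR N a0 p ↔
    ∃ w : List ℕ, (∀ a ∈ w, a < N) ∧ (a0 :: w).foldl (dl p.1) 0 ∈ p.2 := by
  constructor
  · rintro ⟨q, hq, h⟩
    obtain ⟨w, h1, -, rfl⟩ := mem_RL.1 hq
    exact ⟨w, h1, h⟩
  · rintro ⟨w, h1, h⟩
    obtain ⟨w', h2, h3, h4⟩ := short_word N p.1 (dl p.1 0 a0) w h1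
    refine ⟨_, mem_RL.2 ⟨w', h2, h3, rfl⟩, ?_⟩
    rw [h4]
    exact h

theorem primrec_dl : Primrec fun x : List (List ℕ) × ℕ × ℕ => dl x.1 x.2.1 x.2.2 :=
  (Primrec.list_getD 0).comp
    ((Primrec.list_getD []).comp Primrec.fst (Primrec.fst.comp Primrec.snd))
    (Primrec.snd.comp Primrec.snd)

theorem primrec_RL (N a0 : ℕ) : Primrec fun p : List (List ℕ) × List ℕ =>
    RL N p.1 (dl p.1 0 a0) (p.1.flatten.length + 2) := by
  unfold RL
  refine Primrec.nat_iterate (f := fun p : List (List ℕ) × List ℕ => p.1.flatten.length + 2)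
    (g := fun p => [dl p.1 0 a0])
    (h := fun p l => l ++ l.flatMap fun q => (List.range N).map fun a => dl p.1 q a) ?_ ?_ ?_
  · exact Primrec.nat_add.comp (Primrec.list_length.comp (Primrec.list_flatten.comp Primrec.fst))
      (Primrec.const 2)
  · exact Primrec.list_cons.comp (primrec_dl.comp (Primrec.fst.pair (Primrec.const (0, a0))))
      (Primrec.const [])
  · refine Primrec.list_append.comp Primrec.snd (Primrec.list_flatMap Primrec.snd ?_)
    refine Primrec.list_map (Primrec.const _) ?_
    exact primrec_dl.comp ((Primrec.fst.comp (Primrec.fst.comp (Primrec.fst.comp Primrec.fst))).pair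
      ((Primrec.snd.comp Primrec.fst).pair Primrec.snd))

theorem primrecPred_accR (N a0 : ℕ) : PrimrecPred (AccR N a0) := by
  have h1 : PrimrecRel fun (q : ℕ) (l : List ℕ) => q ∈ l := by
    have := (PrimrecRel.exists_mem_list (R := fun (a : ℕ) (b : ℕ) => a = b) Primrec.eq).swap
    refine this.of_eq ?_
    intro a b
    simp [Function.swap]
  have h2 : PrimrecRel fun (L : List ℕ) (l : List ℕ) => ∃ q ∈ L, q ∈ l :=
    PrimrecRel.exists_mem_list h1
  exact h2.comp (primrec_RL N a0) Primrec.snd

end Pool.Agent.ElemPCP
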