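import Mathlib

set_option autoImplicit false

/-!
Families of words with designated letters (a sufficient condition for being elementary) which are
prefix free.
-/

namespace Pool.Agent.ElemPCP

variable {ι κ α β : Type*}

/-- A family of words with designated letters (no two words contain each other's designated letter)
which is prefix free. -/
structure Good (x : ι → List α) : Prop where
  des : ∃ σ : ι → α, (∀ i, σ i ∈ x i) ∧ ∀ i j, i ≠ j → σ i ∈ x j → σ j ∉ x i
  pre : ∀ i j, x i <+: x j → i = j

theorem Good.ne_nil {x : ι → List α} (h : Good x) (i : ι) : x i ≠ [] := by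
  obtain ⟨σ, h1, _⟩ := h.des
  intro h0
  have := h1 i
  rw [h0] at this
  simp at this

/-- Prefix codes: a word over the family which starts with a word over the family can be parsed. -/
theorem Good.split {x : ι → List α} (h : Good x) :
    ∀ (u v : List ι) (r : List α), v.flatMap x = u.flatMap x ++ r →
      ∃ v', v = u ++ v' ∧ r = v'.flatMap x
  | [], v, r, hv => ⟨v, by simp, by simpa using hv.symm⟩
  | i :: u, [], r, hv => by
      exfalso
      have := congrArg List.length hv
      simp at this
      have h2 := List.length_pos_of_ne_nil (h.ne_nil i)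
      omega
  | i :: u, j :: v, r, hv => by
      simp only [List.flatMap_cons, List.append_assoc] at hv
      have hij : i = j := by
        rcases List.append_eq_append_iff.1 hv with ⟨a, ha, _⟩ | ⟨a, ha, _⟩
        · exact (h.pre j i ⟨a, ha.symm⟩).symm
        · exact h.pre i j ⟨a, ha.symm⟩
      subst hij
      have hv' := List.append_cancel_left hv
      obtain ⟨v', h1, h2⟩ := Good.split h u v r hv'
      exact ⟨v', by rw [h1]; rfl, h2⟩

/-- A family with designated letters does not factor through a smaller alphabet. -/
theorem Good.elementary {n : ℕ} {x : Fin n → List α} (h : Good x) :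
    ¬ ∃ m : ℕ, m < n ∧ ∃ f : Fin n → List (Fin m), ∃ g : Fin m → List α,
      ∀ i : Fin n, (f i).flatMap g = x i := by
  rintro ⟨m, hm, f, g, hfg⟩
  obtain ⟨σ, h1, h2⟩ := h.des
  have : ∀ i, ∃ k, k ∈ f i ∧ σ i ∈ g k := by
    intro i
    have := h1 i
    rw [← hfg i, List.mem_flatMap] at this
    exact this
  choose τ hτ1 hτ2 using this
  have hinj : Function.Injective τ := by
    intro i j hij
    by_contra hne
    refine h2 i j hne ?_ ?_
    · rw [← hfg j, List.mem_flatMap]
      exact ⟨τ j, hτ1 j, hij ▸ hτ2 i⟩
    · rw [← hfg i, List.mem_flatMap]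
      exact ⟨τ i, hτ1 i, hij ▸ hτ2 j⟩
  have := Fintype.card_le_of_injective τ hinj
  simp at this
  omega

/-- Singletons with distinct letters. -/
theorem good_single {f : ι → α} (hf : Function.Injective f) : Good (fun i => [f i]) where
  des := ⟨f, by simp, by
    intro i j hij hi
    simp at hi
    exact absurd (hf hi) hij⟩
  pre := by
    intro i j hij
    simp at hij
    exact hf hij

/-- Disjoint union. -/
theorem Good.sum {x : ι → List α} {y : κ → List α} (hx : Good x) (hy : Good y)
    (hd : ∀ i j a, a ∈ x i → a ∈ y j → False) : Good (Sum.elim x y) where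
  des := by
    obtain ⟨σ, h1, h2⟩ := hx.des
    obtain ⟨σ', h1', h2'⟩ := hy.des
    refine ⟨Sum.elim σ σ', ?_, ?_⟩
    · rintro (i | i)
      · exact h1 i
      · exact h1' i
    · rintro (i | i) (j | j) hij h3 h4
      · exact h2 i j (fun h => hij (by rw [h])) h3 h4
      · exact hd i j _ (h1 i) h3
      · exact hd j i _ h3 (h1' i)
      · exact h2' i j (fun h => hij (by rw [h])) h3 h4
  pre := by
    rintro (i | i) (j | j) hij
    · exact congrArg _ (hx.pre i j hij)
    · exfalso
      obtain ⟨a, ha⟩ := List.exists_mem_of_ne_nil _ (hx.ne_nil i)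
      exact hd i j a ha (hij.subset ha)
    · exfalso
      obtain ⟨a, ha⟩ := List.exists_mem_of_ne_nil _ (hy.ne_nil i)
      exact hd j i a (hij.subset ha) ha
    · exact congrArg _ (hy.pre i j hij)

/-- Renaming letters injectively. -/
theorem Good.map {x : ι → List α} (hx : Good x) {f : α → β} (hf : Function.Injective f) :
    Good (fun i => (x i).map f) where
  des := by
    obtain ⟨σ, h1, h2⟩ := hx.des
    refine ⟨f ∘ σ, fun i => List.mem_map_of_mem (h1 i), ?_⟩
    intro i j hij h3 h4
    simp only [Function.comp] at h3 h4
    rw [List.mem_map_of_injective hf] at h3 h4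
    exact h2 i j hij h3 h4
  pre := by
    intro i j hij
    exact hx.pre i j ((List.prefix_map_iff_of_injective hf).1 hij)

/-- Renaming indices injectively. -/
theorem Good.comp {x : ι → List α} (hx : Good x) {e : κ → ι} (he : Function.Injective e) :
    Good (fun i => x (e i)) where
  des := by
    obtain ⟨σ, h1, h2⟩ := hx.des
    exact ⟨σ ∘ e, fun i => h1 _, fun i j hij => h2 _ _ (fun h => hij (he h))⟩
  pre := fun i j hij => he (hx.pre _ _ hij)

end Pool.Agent.ElemPCP
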