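import Mathlib
import Pool.Agent.Lib.MP_b4537c_lc.Words

set_option autoImplicit false

/-!
Passes: finite families of rules `(h i, g i)`, layers, local gates applied to all cells of a layer.
-/

namespace Pool.Agent.ElemPCP

/-- Letters of one time slot. -/
inductive Ltr
  | L | R | z | F
  | bit (j : ℕ) (b : Bool)
  deriving DecidableEq

/-- A pass. -/
structure Pass where
  ι : Type
  [fin : Fintype ι]
  h : ι → List Ltr
  g : ι → List Ltr
  gh : Good h
  gg : Good g

attribute [instance] Pass.fin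

/-- The pass does not use the letter `F`. -/
def Pass.Clean (P : Pass) : Prop := (∀ i, Ltr.F ∉ P.h i) ∧ ∀ i, Ltr.F ∉ P.g i

/-- The rewriting relation of a pass. -/
def Pass.rel (P : Pass) (a b : List Ltr) : Prop :=
  ∃ u : List P.ι, u.flatMap P.h = a ∧ u.flatMap P.g = b

theorem Pass.rel_nil (P : Pass) : P.rel [] [] := ⟨[], rfl, rfl⟩

theorem Pass.rel_append {P : Pass} {a b a' b' : List Ltr} (h1 : P.rel a b) (h2 : P.rel a' b') :
    P.rel (a ++ a') (b ++ b') := by
  obtain ⟨u, rfl, rfl⟩ := h1
  obtain ⟨v, rfl, rfl⟩ := h2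
  exact ⟨u ++ v, by simp, by simp⟩

theorem Pass.rel_single (P : Pass) (i : P.ι) : P.rel (P.h i) (P.g i) := ⟨[i], by simp, by simp⟩

theorem Pass.rel_cons {P : Pass} {x y : Ltr} {a b : List Ltr} (h1 : P.rel [x] [y])
    (h2 : P.rel a b) : P.rel (x :: a) (y :: b) :=
  Pass.rel_append (a := [x]) (b := [y]) h1 h2

theorem Pass.rel_flatMap {P : Pass} {α : Type*} {l : List α} {f g : α → List Ltr}
    (h : ∀ x ∈ l, P.rel (f x) (g x)) : P.rel (l.flatMap f) (l.flatMap g) := by
  induction l with
  | nil => exact P.rel_nil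
  | cons x l ih =>
      simp only [List.flatMap_cons]
      exact Pass.rel_append (h x (by simp)) (ih (fun y hy => h y (by simp [hy])))

/-- The reversed pass. -/
def Pass.swap (P : Pass) : Pass where
  ι := P.ι
  h := P.g
  g := P.h
  gh := P.gg
  gg := P.gh

theorem Pass.swap_clean {P : Pass} (h : P.Clean) : P.swap.Clean := ⟨h.2, h.1⟩

theorem Pass.swap_rel {P : Pass} {a b : List Ltr} (h : P.rel a b) : P.swap.rel b a := by
  obtain ⟨u, h1, h2⟩ := h
  exact ⟨u, h2, h1⟩

/-- Sequences of passes. -/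
def Chain : List Pass → List Ltr → List Ltr → Prop
  | [], a, b => a = b
  | P :: Ps, a, c => ∃ b, P.rel a b ∧ Chain Ps b c

theorem Chain.append {Ps Qs : List Pass} {a b c : List Ltr} (h1 : Chain Ps a b)
    (h2 : Chain Qs b c) : Chain (Ps ++ Qs) a c := by
  induction Ps generalizing a with
  | nil => cases h1; exact h2
  | cons P Ps ih =>
      obtain ⟨d, hd, h1⟩ := h1
      exact ⟨d, hd, ih h1⟩

theorem Chain.reverse {Ps : List Pass} {a b : List Ltr} (h1 : Chain Ps a b) :
    Chain (Ps.reverse.map Pass.swap) b a := by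
  induction Ps generalizing a with
  | nil => cases h1; rfl
  | cons P Ps ih =>
      obtain ⟨d, hd, h1⟩ := h1
      rw [List.reverse_cons, List.map_append]
      exact (ih h1).append ⟨a, Pass.swap_rel hd, rfl⟩

/-- A relation between layers is realised by a chain of clean passes. -/
def Real (D : List Ltr → List Ltr → Prop) : Prop :=
  ∃ Ps : List Pass, (∀ P ∈ Ps, P.Clean) ∧ ∀ a b, D a b → Chain Ps a b

theorem Real.mono {D D' : List Ltr → List Ltr → Prop} (h : Real D) (hD : ∀ a b, D' a b → D a b) :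
    Real D' := by
  obtain ⟨Ps, h1, h2⟩ := h
  exact ⟨Ps, h1, fun a b hab => h2 a b (hD a b hab)⟩

theorem Real.of_pass {D : List Ltr → List Ltr → Prop} (P : Pass) (hP : P.Clean)
    (h : ∀ a b, D a b → P.rel a b) : Real D :=
  ⟨[P], by simpa using hP, fun a b hab => ⟨b, h a b hab, rfl⟩⟩

theorem Real.comp {D D' D'' : List Ltr → List Ltr → Prop} (h : Real D) (h' : Real D')
    (hD : ∀ a c, D'' a c → ∃ b, D a b ∧ D' b c) : Real D'' := by
  obtain ⟨Ps, h1, h2⟩ := h
  obtain ⟨Qs, h3, h4⟩ := h'
  refine ⟨Ps ++ Qs, ?_, ?_⟩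
  · intro P hP
    rcases List.mem_append.1 hP with h | h
    · exact h1 P h
    · exact h3 P h
  · intro a c hac
    obtain ⟨b, hab, hbc⟩ := hD a c hac
    exact (h2 a b hab).append (h4 b c hbc)

theorem Real.symm {D : List Ltr → List Ltr → Prop} (h : Real D) : Real (fun a b => D b a) := by
  obtain ⟨Ps, h1, h2⟩ := h
  refine ⟨Ps.reverse.map Pass.swap, ?_, fun a b hab => (h2 b a hab).reverse⟩
  intro P hP
  simp only [List.mem_map, List.mem_reverse] at hP
  obtain ⟨Q, hQ, rfl⟩ := hP
  exact Pass.swap_clean (h1 Q hQ)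

theorem Real.refl : Real (fun a b => a = b) := ⟨[], by simp, fun _ _ h => h⟩

/-! ### Layers -/

/-- A bit vector with letters typed by position, starting at position `p`. -/
def tw (p : ℕ) : List Bool → List Ltr
  | [] => []
  | b :: w => Ltr.bit p b :: tw (p + 1) w

@[simp] theorem tw_nil (p : ℕ) : tw p [] = [] := rfl

@[simp] theorem tw_cons (p : ℕ) (b : Bool) (w : List Bool) :
    tw p (b :: w) = Ltr.bit p b :: tw (p + 1) w := rfl

theorem tw_append (p : ℕ) (u v : List Bool) : tw p (u ++ v) = tw p u ++ tw (p + u.length) v := by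
  induction u generalizing p with
  | nil => simp
  | cons b u ih =>
      simp only [List.cons_append, tw_cons, ih, List.length_cons]
      rw [show p + 1 + u.length = p + (u.length + 1) by omega]

theorem mem_tw {p : ℕ} {w : List Bool} {x : Ltr} (h : x ∈ tw p w) :
    ∃ j b, x = Ltr.bit j b ∧ p ≤ j ∧ j < p + w.length := by
  induction w generalizing p with
  | nil => simp at h
  | cons b w ih =>
      simp only [tw_cons, List.mem_cons] at h
      rcases h with rfl | h
      · exact ⟨p, b, rfl, le_rfl, by simp⟩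
      · obtain ⟨j, b', rfl, h1, h2⟩ := ih h
        exact ⟨j, b', rfl, by omega, by simp only [List.length_cons]; omega⟩

/-- The word of a cell. -/
def cellW (w : List Bool) : List Ltr := Ltr.z :: tw 0 w

/-- The word of a layer. -/
def lay (bs : List (List Bool)) : List Ltr := Ltr.L :: (bs.flatMap cellW ++ [Ltr.R])

/-- Shift of positions. -/
def shL (p : ℕ) : Ltr → Ltr
  | Ltr.bit j b => Ltr.bit (p + j) b
  | x => x

theorem shL_inj (p : ℕ) : Function.Injective (shL p) := by
  intro x y h
  cases x <;> cases y <;> simp_all [shL]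

theorem tw_eq_map (p q : ℕ) (w : List Bool) : tw (p + q) w = (tw q w).map (shL p) := by
  induction w generalizing q with
  | nil => rfl
  | cons b w ih =>
      simp only [tw_cons, List.map_cons, shL]
      rw [← ih, show p + q + 1 = p + (q + 1) by omega]

/-! ### Gates -/

/-- A local gate on bit vectors. -/
structure Gate where
  κ : Type
  [fin : Fintype κ]
  a : ℕ
  a' : ℕ
  fi : κ → List Bool
  fo : κ → List Bool
  leni : ∀ k, (fi k).length = a
  leno : ∀ k, (fo k).length = a'
  gi : Good (fun k => tw 0 (fi k))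
  go : Good (fun k => tw 0 (fo k))

attribute [instance] Gate.fin

theorem Good.tw {κ : Type*} {f : κ → List Bool} (h : Good (fun k => tw 0 (f k))) (p : ℕ) :
    Good (fun k => Pool.Agent.ElemPCP.tw p (f k)) := by
  have := h.map (shL_inj p)
  simpa only [← tw_eq_map, Nat.add_zero] using this

/-- Letters copied by a gate pass: `a` is the arity of the gate. -/
def sgl (a p q : ℕ) : Option Bool ⊕ ((Fin p × Bool) ⊕ (Fin q × Bool)) → Ltr
  | Sum.inl none => Ltr.L
  | Sum.inl (some false) => Ltr.R
  | Sum.inl (some true) => Ltr.z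
  | Sum.inr (Sum.inl (j, b)) => Ltr.bit j b
  | Sum.inr (Sum.inr (j, b)) => Ltr.bit (p + a + j) b

theorem sgl_inj (a p q : ℕ) : Function.Injective (sgl a p q) := by
  intro x y h
  rcases x with (_ | (_ | _)) | ⟨j, b⟩ | ⟨j, b⟩ <;> rcases y with (_ | (_ | _)) | ⟨j', b'⟩ | ⟨j', b'⟩ <;>
    simp only [sgl, reduceCtorEq, Ltr.bit.injEq] at h <;> try rfl
  · obtain ⟨h1, rfl⟩ := h
    rw [Fin.ext h1]
  · exact absurd h.1 (by omega)
  · exact absurd h.1 (by omega)
  · obtain ⟨h1, rfl⟩ := h
    have : j = j' := Fin.ext (by omega)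
    rw [this]

theorem good_gate {κ : Type*} {f : κ → List Bool} (hf : Good (fun k => tw 0 (f k))) (a p q : ℕ)
    (hlen : ∀ k, (f k).length = a) :
    Good (Sum.elim (fun k => tw p (f k)) (fun i => [sgl a p q i])) := by
  refine (hf.tw p).sum (good_single (sgl_inj a p q)) ?_
  intro k i x hx hi
  simp only [List.mem_singleton] at hi
  obtain ⟨j, b, rfl, h1, h2⟩ := mem_tw hx
  rw [hlen k] at h2
  rcases i with (_ | (_ | _)) | ⟨j', b'⟩ | ⟨j', b'⟩ <;> simp only [sgl, reduceCtorEq, Ltr.bit.injEq] at hi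
  · omega
  · omega

/-- The pass applying the gate `G` at position `p` of every cell, with `q` lines after the gate. -/
def gatePass (G : Gate) (p q : ℕ) : Pass where
  ι := G.κ ⊕ (Option Bool ⊕ ((Fin p × Bool) ⊕ (Fin q × Bool)))
  h := Sum.elim (fun k => tw p (G.fi k)) (fun i => [sgl G.a p q i])
  g := Sum.elim (fun k => tw p (G.fo k)) (fun i => [sgl G.a' p q i])
  gh := good_gate G.gi _ _ _ G.leni
  gg := good_gate G.go _ _ _ G.leno

theorem gatePass_clean (G : Gate) (p q : ℕ) : (gatePass G p q).Clean := by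
  constructor
  · rintro (k | (_ | (_ | _)) | ⟨j', b'⟩ | ⟨j', b'⟩) h
    · obtain ⟨j, b, h1, _⟩ := mem_tw h
      cases h1
    all_goals simp [gatePass, sgl] at h
  · rintro (k | (_ | (_ | _)) | ⟨j', b'⟩ | ⟨j', b'⟩) h
    · obtain ⟨j, b, h1, _⟩ := mem_tw h
      cases h1
    all_goals simp [gatePass, sgl] at h

theorem gatePass_pre (G : Gate) (p q j : ℕ) (w : List Bool) (hw : j + w.length ≤ p) :
    (gatePass G p q).rel (tw j w) (tw j w) := by
  induction w generalizing j with
  | nil => exact Pass.rel_nil _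
  | cons b w ih =>
      simp only [List.length_cons] at hw
      exact Pass.rel_cons
        ((gatePass G p q).rel_single (Sum.inr (Sum.inr (Sum.inl (⟨j, by omega⟩, b)))))
        (ih (j + 1) (by omega))

theorem gatePass_post (G : Gate) (p q j : ℕ) (w : List Bool) (hw : j + w.length ≤ q) :
    (gatePass G p q).rel (tw (p + G.a + j) w) (tw (p + G.a' + j) w) := by
  induction w generalizing j with
  | nil => exact Pass.rel_nil _
  | cons b w ih =>
      simp only [List.length_cons] at hw
      exact Pass.rel_cons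
        ((gatePass G p q).rel_single (Sum.inr (Sum.inr (Sum.inr (⟨j, by omega⟩, b)))))
        (ih (j + 1) (by omega))

theorem gatePass_rel (G : Gate) (p q : ℕ) (cells : List (List Bool × G.κ × List Bool))
    (hp : ∀ c ∈ cells, c.1.length = p) (hq : ∀ c ∈ cells, c.2.2.length = q) :
    (gatePass G p q).rel (lay (cells.map fun c => c.1 ++ (G.fi c.2.1 ++ c.2.2)))
      (lay (cells.map fun c => c.1 ++ (G.fo c.2.1 ++ c.2.2))) := by
  unfold lay
  refine Pass.rel_cons ((gatePass G p q).rel_single (Sum.inr (Sum.inl none))) ?_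
  refine Pass.rel_append ?_ ((gatePass G p q).rel_single (Sum.inr (Sum.inl (some false))))
  simp only [List.flatMap_map]
  refine Pass.rel_flatMap ?_
  rintro ⟨A, k, B⟩ hc
  have h1 := hp _ hc
  have h2 := hq _ hc
  simp only at h1 h2
  simp only [cellW, tw_append, Nat.zero_add, h1, G.leni, G.leno]
  refine Pass.rel_cons ((gatePass G p q).rel_single (Sum.inr (Sum.inl (some true)))) ?_
  refine Pass.rel_append (gatePass_pre G p q 0 A (by omega)) ?_
  refine Pass.rel_append ((gatePass G p q).rel_single (Sum.inl k)) ?_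
  exact gatePass_post G p q 0 B (by omega)

end Pool.Agent.ElemPCP
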