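import Mathlib
import Pool.Agent.Lib.MP_b4537c_lc.Pass

set_option autoImplicit false

/-!
The special passes: shift of the last line to the next cell, insertion of a cell, detection.
-/

namespace Pool.Agent.ElemPCP

/-! ### Shift -/

theorem good_sh_h0 : Good (Sum.elim (fun b : Bool => [Ltr.bit 0 b, Ltr.z])
    (fun b : Bool => if b then [Ltr.L, Ltr.z] else [Ltr.bit 0 false, Ltr.R])) where
  des := ⟨Sum.elim (fun b => if b then Ltr.bit 0 true else Ltr.z)
    (fun b => if b then Ltr.L else Ltr.R), by decide, by decide⟩
  pre := by decide

theorem good_sh_h (k : ℕ) : Good (Sum.elim (fun b : Bool => [Ltr.bit k b, Ltr.z])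
    (fun b : Bool => if b then [Ltr.L, Ltr.z] else [Ltr.bit k false, Ltr.R])) := by
  have := good_sh_h0.map (shL_inj k)
  refine cast ?_ this
  congr 1
  funext i
  rcases i with (_ | _) | (_ | _) <;> simp [shL]

theorem good_sh_g : Good (Sum.elim (fun b : Bool => [Ltr.z, Ltr.bit 0 b])
    (fun b : Bool => if b then [Ltr.L, Ltr.z, Ltr.bit 0 false] else [Ltr.R])) where
  des := ⟨Sum.elim (fun b => if b then Ltr.bit 0 true else Ltr.z)
    (fun b => if b then Ltr.L else Ltr.R), by decide, by decide⟩
  pre := by decide

/-- The pass which moves the last line (line `k`) of every cell to the front of the next cell. -/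
def shPass (k : ℕ) : Pass where
  ι := (Bool ⊕ Bool) ⊕ (Fin k × Bool)
  h := Sum.elim (Sum.elim (fun b : Bool => [Ltr.bit k b, Ltr.z])
    (fun b : Bool => if b then [Ltr.L, Ltr.z] else [Ltr.bit k false, Ltr.R]))
    (fun i => [Ltr.bit i.1 i.2])
  g := Sum.elim (Sum.elim (fun b : Bool => [Ltr.z, Ltr.bit 0 b])
    (fun b : Bool => if b then [Ltr.L, Ltr.z, Ltr.bit 0 false] else [Ltr.R]))
    (fun i => [Ltr.bit (i.1 + 1) i.2])
  gh := by
    refine (good_sh_h k).sum (good_single (f := fun i : Fin k × Bool => Ltr.bit i.1 i.2) ?_) ?_
    · rintro ⟨i, b⟩ ⟨j, c⟩ h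
      simp only [Ltr.bit.injEq] at h
      exact Prod.ext (Fin.ext h.1) h.2
    · rintro ((_ | _) | (_ | _)) ⟨j, c⟩ x hx hj <;> simp at hx hj <;> subst hj <;> simp at hx <;>
        omega
  gg := by
    refine good_sh_g.sum (good_single (f := fun i : Fin k × Bool => Ltr.bit (i.1 + 1) i.2) ?_) ?_
    · rintro ⟨i, b⟩ ⟨j, c⟩ h
      simp only [Ltr.bit.injEq] at h
      exact Prod.ext (Fin.ext (by simpa using h.1)) h.2
    · rintro ((_ | _) | (_ | _)) ⟨j, c⟩ x hx hj <;> simp at hx hj <;> subst hj <;> simp at hx

theorem shPass_clean (k : ℕ) : (shPass k).Clean := by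
  constructor
  · rintro (((_ | _) | (_ | _)) | ⟨j, c⟩) <;> simp [shPass]
  · rintro (((_ | _) | (_ | _)) | ⟨j, c⟩) <;> simp [shPass]

theorem shPass_copy (k j : ℕ) (w : List Bool) (hw : j + w.length ≤ k) :
    (shPass k).rel (tw j w) (tw (j + 1) w) := by
  induction w generalizing j with
  | nil => exact Pass.rel_nil _
  | cons b w ih =>
      simp only [List.length_cons] at hw
      exact Pass.rel_cons
        ((shPass k).rel_single (Sum.inr (⟨j, by omega⟩, b)))
        (ih (j + 1) (by omega))

/-- The shifted list of cells, `y` being the incoming bit. -/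
def shf : Bool → List (List Bool × Bool) → List (List Bool)
  | _, [] => []
  | y, c :: cs => (y :: c.1) :: shf c.2 cs

/-- The outgoing bit. -/
def outY : Bool → List (List Bool × Bool) → Bool
  | y, [] => y
  | _, c :: cs => outY c.2 cs

theorem shPass_rel_aux (k : ℕ) (cs : List (List Bool × Bool)) (hk : ∀ c ∈ cs, c.1.length = k)
    (y : Bool) (hy : outY y cs = false) :
    (shPass k).rel (Ltr.bit k y :: ((cs.map fun c => c.1 ++ [c.2]).flatMap cellW ++ [Ltr.R]))
      ((shf y cs).flatMap cellW ++ [Ltr.R]) := by
  induction cs generalizing y with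
  | nil =>
      simp only [outY] at hy
      subst hy
      exact (shPass k).rel_single (Sum.inl (Sum.inr false))
  | cons c cs ih =>
      have h1 : c.1.length = k := hk c (by simp)
      simp only [List.map_cons, List.flatMap_cons, shf, cellW, tw_append, Nat.zero_add, h1, tw_cons,
        tw_nil]
      have e := ih (fun c hc => hk c (by simp [hc])) c.2 hy
      have s1 := (shPass k).rel_single (Sum.inl (Sum.inl y))
      have s2 := shPass_copy k 0 c.1 (by omega)
      have := Pass.rel_append s1 (Pass.rel_append s2 e)
      simpa [shPass] using this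

theorem shPass_rel (k : ℕ) (cs : List (List Bool × Bool)) (hk : ∀ c ∈ cs, c.1.length = k)
    (hne : cs ≠ []) (hy : outY false cs = false) :
    (shPass k).rel (lay (cs.map fun c => c.1 ++ [c.2])) (lay (shf false cs)) := by
  cases cs with
  | nil => exact absurd rfl hne
  | cons c cs =>
      have h1 : c.1.length = k := hk c (by simp)
      simp only [lay, List.map_cons, List.flatMap_cons, shf, cellW, tw_append, Nat.zero_add, h1,
        tw_cons, tw_nil]
      have e := shPass_rel_aux k cs (fun c hc => hk c (by simp [hc])) c.2 hy
      have s1 := (shPass k).rel_single (Sum.inl (Sum.inr true))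
      have s2 := shPass_copy k 0 c.1 (by omega)
      have := Pass.rel_append s1 (Pass.rel_append s2 e)
      simpa [shPass] using this

/-- Shift of a block of lines. -/
def shv : List Bool → List (List Bool × List Bool) → List (List Bool)
  | _, [] => []
  | v, c :: cs => (v ++ c.1) :: shv c.2 cs

def outV : List Bool → List (List Bool × List Bool) → List Bool
  | v, [] => v
  | _, c :: cs => outV c.2 cs

/-- One step of the block shift. -/
def trs : Bool → List (List Bool × List Bool) → List (List Bool × List Bool)
  | _, [] => []
  | y, c :: cs => (y :: c.1, c.2.dropLast) :: trs (c.2.getLastD false) cs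

theorem dropLast_append_getLastD {v : List Bool} {n : ℕ} (h : v.length = n + 1) :
    v.dropLast ++ [v.getLastD false] = v := by
  have hv : v ≠ [] := by rintro rfl; simp at h
  rw [List.getLastD_eq_getLast?, List.getLast?_eq_getLast_of_ne_nil hv]
  simp [List.dropLast_append_getLast]

theorem shv_trs (n : ℕ) (cs : List (List Bool × List Bool)) (h : ∀ c ∈ cs, c.2.length = n + 1)
    (v : List Bool) (y : Bool) : shv v (trs y cs) = shv (v ++ [y]) cs := by
  induction cs generalizing v y with
  | nil => rfl
  | cons c cs ih =>
      simp only [trs, shv]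
      rw [ih (fun c hc => h c (by simp [hc])), dropLast_append_getLastD (h c (by simp))]
      simp

theorem outV_trs (n : ℕ) (cs : List (List Bool × List Bool)) (h : ∀ c ∈ cs, c.2.length = n + 1)
    (v : List Bool) (y : Bool) :
    outV v (trs y cs) ++ [outY y (cs.map fun c => (c.1 ++ c.2.dropLast, c.2.getLastD false))] =
      outV (v ++ [y]) cs := by
  induction cs generalizing v y with
  | nil => rfl
  | cons c cs ih =>
      simp only [trs, outV, List.map_cons, outY]
      rw [ih (fun c hc => h c (by simp [hc])), dropLast_append_getLastD (h c (by simp))]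

theorem shf_trs (cs : List (List Bool × List Bool)) (y : Bool) :
    shf y (cs.map fun c => (c.1 ++ c.2.dropLast, c.2.getLastD false)) =
      (trs y cs).map fun c => c.1 ++ c.2 := by
  induction cs generalizing y with
  | nil => rfl
  | cons c cs ih =>
      simp only [List.map_cons, shf, trs]
      rw [ih]
      simp

theorem length_trs (m n : ℕ) (cs : List (List Bool × List Bool))
    (h : ∀ c ∈ cs, c.1.length = m ∧ c.2.length = n + 1) (y : Bool) :
    ∀ c ∈ trs y cs, c.1.length = m + 1 ∧ c.2.length = n := by
  induction cs generalizing y with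
  | nil => simp [trs]
  | cons c cs ih =>
      intro d hd
      simp only [trs, List.mem_cons] at hd
      rcases hd with rfl | hd
      · have := h c (by simp)
        simp [this.1, this.2]
      · exact ih (fun c hc => h c (by simp [hc])) _ d hd

/-- Realisation of the block shift. -/
theorem real_shv (n : ℕ) : ∀ m : ℕ, Real fun a b => ∃ cs : List (List Bool × List Bool),
    cs ≠ [] ∧ (∀ c ∈ cs, c.1.length = m ∧ c.2.length = n) ∧
      outV (List.replicate n false) cs = List.replicate n false ∧
      a = lay (cs.map fun c => c.1 ++ c.2) ∧ b = lay (shv (List.replicate n false) cs) := by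
  induction n with
  | zero =>
      intro m
      refine Real.refl.mono ?_
      rintro a b ⟨cs, -, h2, -, rfl, rfl⟩
      congr 1
      have : ∀ cs : List (List Bool × List Bool), (∀ c ∈ cs, c.2.length = 0) →
          (cs.map fun c => c.1 ++ c.2) = shv [] cs := by
        intro cs
        induction cs with
        | nil => intro _; rfl
        | cons c cs ih =>
            intro h
            have hc : c.2 = [] := List.length_eq_zero_iff.1 (h c (by simp))
            have ih' := ih (fun c hc => h c (by simp [hc]))
            simp only [List.map_cons, shv, List.nil_append, hc, List.append_nil]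
            rw [ih']
      exact this cs fun c hc => (h2 c hc).2
  | succ n ih =>
      intro m
      have s1 : Real fun a b => ∃ cs : List (List Bool × Bool), cs ≠ [] ∧
          (∀ c ∈ cs, c.1.length = m + n) ∧ outY false cs = false ∧
          a = lay (cs.map fun c => c.1 ++ [c.2]) ∧ b = lay (shf false cs) := by
        refine Real.of_pass (shPass (m + n)) (shPass_clean _) ?_
        rintro a b ⟨cs, h1, h2, h3, rfl, rfl⟩
        exact shPass_rel _ cs h2 h1 h3
      refine Real.comp s1 (ih (m + 1)) ?_
      rintro a b ⟨cs, h1, h2, h3, rfl, rfl⟩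
      have h2' : ∀ c ∈ cs, c.2.length = n + 1 := fun c hc => (h2 c hc).2
      have hrep : List.replicate (n + 1) false = List.replicate n false ++ [false] :=
        List.replicate_succ' ..
      rw [hrep, ← outV_trs n cs h2' (List.replicate n false) false] at h3
      have h4 := List.append_inj' h3 (by simp)
      refine ⟨lay (shf false (cs.map fun c => (c.1 ++ c.2.dropLast, c.2.getLastD false))),
        ⟨_, by simpa using h1, ?_, by simpa using h4.2, ?_, rfl⟩,
        ⟨trs false cs, ?_, length_trs m n cs h2 false, h4.1, ?_, ?_⟩⟩
      · simp only [List.mem_map, forall_exists_index, and_imp, forall_apply_eq_imp_iff₂]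
        intro c hc
        have := h2 c hc
        simp [this.1, this.2]
      · congr 1
        rw [List.map_map]
        apply List.map_congr_left
        intro c hc
        simp only [Function.comp, List.append_assoc]
        rw [dropLast_append_getLastD (h2' c hc)]
      · cases cs with
        | nil => exact absurd rfl h1
        | cons c cs => simp [trs]
      · rw [shf_trs]
      · rw [shv_trs n cs h2', hrep]

end Pool.Agent.ElemPCP
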