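import Mathlib
import Pool.Agent.Lib.MP_b4537c_lc.Pass

set_option autoImplicit false

/-!
Encodings of a set of cell states by lists of boolean functions (wires) and the re-encoding theorem.
-/

namespace Pool.Agent.ElemPCP

/-! ### Concrete gates -/

theorem good_pair : Good (fun k : Bool × Bool => tw 0 [k.1, k.2]) where
  des := ⟨fun k => if k.1 = k.2 then Ltr.bit 0 k.1 else Ltr.bit 1 k.2, by decide, by decide⟩
  pre := by decide

def notG : Gate where
  κ := Bool
  a := 1
  a' := 1
  fi b := [b]
  fo b := [!b]
  leni := by decide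
  leno := by decide
  gi := { des := ⟨fun b => Ltr.bit 0 b, by decide, by decide⟩, pre := by decide }
  go := { des := ⟨fun b => Ltr.bit 0 (!b), by decide, by decide⟩, pre := by decide }

def zeroG : Gate where
  κ := Bool
  a := 1
  a' := 2
  fi b := [b]
  fo b := [false, b]
  leni := by decide
  leno := by decide
  gi := { des := ⟨fun b => Ltr.bit 0 b, by decide, by decide⟩, pre := by decide }
  go := { des := ⟨fun b => Ltr.bit 1 b, by decide, by decide⟩, pre := by decide }

def swapG : Gate where
  κ := Bool × Bool
  a := 2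
  a' := 2
  fi k := [k.1, k.2]
  fo k := [k.2, k.1]
  leni := by decide
  leno := by decide
  gi := good_pair
  go := good_pair.comp (e := fun k : Bool × Bool => (k.2, k.1)) (by decide)

def cnotG : Gate where
  κ := Bool × Bool
  a := 2
  a' := 2
  fi k := [k.1, k.2]
  fo k := [k.1, xor k.1 k.2]
  leni := by decide
  leno := by decide
  gi := good_pair
  go := good_pair.comp (e := fun k : Bool × Bool => (k.1, xor k.1 k.2)) (by decide)

def andG : Gate where
  κ := Bool × Bool
  a := 2
  a' := 3
  fi k := [k.1, k.2]
  fo k := [k.1, k.1 && k.2, k.2]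
  leni := by decide
  leno := by decide
  gi := good_pair
  go := { des := ⟨fun k => if k.1 = k.2 then Ltr.bit 1 k.1 else if k.1 then Ltr.bit 0 true
              else Ltr.bit 2 true, by decide, by decide⟩
          pre := by decide }

/-! ### Wires -/

variable {S : Type}

/-- The bit vector of a state. -/
def enc (W : List (S → Bool)) (s : S) : List Bool := W.map fun w => w s

@[simp] theorem enc_append (W W' : List (S → Bool)) (s : S) :
    enc (W ++ W') s = enc W s ++ enc W' s := by simp [enc]

@[simp] theorem enc_cons (w : S → Bool) (W' : List (S → Bool)) (s : S) :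
    enc (w :: W') s = w s :: enc W' s := rfl

@[simp] theorem enc_nil (s : S) : enc [] s = [] := rfl

@[simp] theorem length_enc (W : List (S → Bool)) (s : S) : (enc W s).length = W.length := by
  simp [enc]

/-- Two encodings are connected by a chain of passes. -/
def RE (W W' : List (S → Bool)) : Prop :=
  Real fun a b => ∃ C : List S, a = lay (C.map (enc W)) ∧ b = lay (C.map (enc W'))

theorem RE.refl (W : List (S → Bool)) : RE W W :=
  Real.refl.mono (by rintro a b ⟨C, rfl, rfl⟩; rfl)

theorem RE.symm {W W' : List (S → Bool)} (h : RE W W') : RE W' W :=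
  (Real.symm h).mono (by rintro a b ⟨C, rfl, rfl⟩; exact ⟨C, rfl, rfl⟩)

theorem RE.trans {W W' W'' : List (S → Bool)} (h : RE W W') (h' : RE W' W'') : RE W W'' :=
  Real.comp h h' (by rintro a b ⟨C, rfl, rfl⟩; exact ⟨_, ⟨C, rfl, rfl⟩, ⟨C, rfl, rfl⟩⟩)

theorem RE.gate (G : Gate) (A X X' B : List (S → Bool))
    (h : ∀ s, ∃ k, G.fi k = enc X s ∧ G.fo k = enc X' s) :
    RE (A ++ (X ++ B)) (A ++ (X' ++ B)) := by
  choose k hk using h
  refine Real.of_pass (gatePass G A.length B.length) (gatePass_clean _ _ _) ?_
  rintro a b ⟨C, rfl, rfl⟩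
  have := gatePass_rel G A.length B.length (C.map fun s => (enc A s, k s, enc B s))
    (by simp) (by simp)
  simp only [List.map_map, Function.comp_def, hk] at this
  have e1 : ∀ Y : List (S → Bool), enc (A ++ (Y ++ B)) = fun s => enc A s ++ (enc Y s ++ enc B s) := by
    intro Y
    funext s
    simp
  rw [e1, e1]
  exact this

theorem RE.swap_adj (A B : List (S → Bool)) (x y : S → Bool) :
    RE (A ++ x :: y :: B) (A ++ y :: x :: B) :=
  RE.gate swapG A [x, y] [y, x] B (fun s => ⟨((x s, y s) : Bool × Bool), rfl, rfl⟩)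

theorem RE.perm_aux {W W' : List (S → Bool)} (h : W.Perm W') :
    ∀ A B, RE (A ++ (W ++ B)) (A ++ (W' ++ B)) := by
  induction h with
  | nil => intro A B; exact RE.refl _
  | cons x _ ih =>
      intro A B
      simpa using ih (A ++ [x]) B
  | swap x y l =>
      intro A B
      simpa using RE.swap_adj A (l ++ B) y x
  | trans _ _ ih1 ih2 =>
      intro A B
      exact (ih1 A B).trans (ih2 A B)

theorem RE.perm {W W' : List (S → Bool)} (h : W.Perm W') : RE W W' := by
  simpa using RE.perm_aux h [] []

theorem RE.not (x : S → Bool) (W : List (S → Bool)) : RE (x :: W) ((fun s => !x s) :: W) :=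
  RE.gate notG [] [x] [fun s => !x s] W (fun s => ⟨(x s : Bool), rfl, rfl⟩)

theorem RE.zero {W : List (S → Bool)} (hW : W ≠ []) : RE W ((fun _ => false) :: W) := by
  cases W with
  | nil => exact absurd rfl hW
  | cons x W => exact RE.gate zeroG [] [x] [fun _ => false, x] W (fun s => ⟨(x s : Bool), rfl, rfl⟩)

theorem RE.cnot (x y : S → Bool) (W : List (S → Bool)) :
    RE (x :: y :: W) (x :: (fun s => xor (x s) (y s)) :: W) :=
  RE.gate cnotG [] [x, y] [x, fun s => xor (x s) (y s)] W (fun s => ⟨((x s, y s) : Bool × Bool), rfl, rfl⟩)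

theorem RE.and (x y : S → Bool) (W : List (S → Bool)) :
    RE (x :: y :: W) (x :: (fun s => x s && y s) :: y :: W) :=
  RE.gate andG [] [x, y] [x, fun s => x s && y s, y] W (fun s => ⟨((x s, y s) : Bool × Bool), rfl, rfl⟩)

theorem RE.copy (x : S → Bool) (W : List (S → Bool)) : RE (x :: W) (x :: x :: W) := by
  refine (RE.zero (by simp)).trans ?_
  refine (RE.perm (List.Perm.swap x _ W)).trans ?_
  have := RE.cnot x (fun _ => false) W
  simpa using this

/-- The boolean functions which can be added in front of `W` in every context. -/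
def Adds (W : List (S → Bool)) (β : S → Bool) : Prop := ∀ U, RE (W ++ U) (β :: (W ++ U))

theorem Adds.mem {W : List (S → Bool)} {w : S → Bool} (hw : w ∈ W) : Adds W w := by
  intro U
  obtain ⟨A, B, rfl⟩ := List.append_of_mem hw
  have h1 : (A ++ w :: B ++ U).Perm (w :: (A ++ B ++ U)) := by
    simpa using (List.perm_middle (a := w) (l₁ := A) (l₂ := B ++ U))
  exact ((RE.perm h1).trans (RE.copy w _)).trans (RE.perm (h1.symm.cons w))

theorem Adds.ff {W : List (S → Bool)} (hW : W ≠ []) : Adds W (fun _ => false) := by
  intro U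
  exact RE.zero (by simp [hW])

theorem Adds.not {W : List (S → Bool)} {β : S → Bool} (h : Adds W β) : Adds W (fun s => !β s) :=
  fun U => (h U).trans (RE.not β _)

theorem Adds.and {W : List (S → Bool)} {β γ : S → Bool} (h : Adds W β) (h' : Adds W γ) :
    Adds W (fun s => β s && γ s) := by
  intro U
  -- W ++ U ⇝ β :: W ++ U ~ W ++ (β :: U) ⇝ γ :: W ++ (β :: U)
  have e1 : (β :: (W ++ U)).Perm (W ++ β :: U) := List.perm_middle.symm
  have s1 := ((h U).trans (RE.perm e1)).trans (h' (β :: U))
  -- ~ β :: γ :: (W ++ U) ⇝ β :: (β && γ) :: γ :: (W ++ U)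
  have e2 : (γ :: (W ++ β :: U)).Perm (β :: γ :: (W ++ U)) :=
    (e1.symm.cons γ).trans (List.Perm.swap β γ _)
  have s2 := (s1.trans (RE.perm e2)).trans (RE.and β γ (W ++ U))
  set δ : S → Bool := fun s => β s && γ s
  -- ~ γ :: (W ++ δ :: β :: U) ⇝ W ++ (δ :: β :: U)
  have e3 : (β :: δ :: γ :: (W ++ U)).Perm (γ :: (W ++ δ :: β :: U)) := by
    have a1 : (β :: δ :: γ :: (W ++ U)).Perm (γ :: β :: δ :: (W ++ U)) := by
      refine ((List.Perm.swap γ δ _).cons β).trans ?_
      exact List.Perm.swap γ β _
    refine a1.trans (List.Perm.cons γ ?_)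
    refine (List.Perm.swap δ β _).trans ?_
    refine (List.Perm.cons δ (List.perm_middle (a := β) (l₁ := W) (l₂ := U)).symm).trans ?_
    exact (List.perm_middle (a := δ) (l₁ := W) (l₂ := β :: U)).symm
  have s3 := (s2.trans (RE.perm e3)).trans (h' (δ :: β :: U)).symm
  -- ~ β :: (W ++ δ :: U) ⇝ W ++ δ :: U ~ δ :: (W ++ U)
  have e4 : (W ++ δ :: β :: U).Perm (β :: (W ++ δ :: U)) := by
    refine (List.Perm.append_left W (List.Perm.swap β δ U)).trans ?_
    exact List.perm_middle
  have s4 := (s3.trans (RE.perm e4)).trans (h (δ :: U)).symm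
  exact s4.trans (RE.perm List.perm_middle)

theorem Adds.tt {W : List (S → Bool)} (hW : W ≠ []) : Adds W (fun _ => true) := by
  simpa using (Adds.ff hW).not

theorem Adds.or {W : List (S → Bool)} {β γ : S → Bool} (h : Adds W β) (h' : Adds W γ) :
    Adds W (fun s => β s || γ s) := by
  have := (h.not.and h'.not).not
  simpa [Bool.not_and] using this

theorem Adds.eqv {W : List (S → Bool)} {β : S → Bool} (h : Adds W β) (b : Bool) :
    Adds W (fun s => β s == b) := by
  cases b
  · simpa using h.not
  · simpa using h

theorem Adds.forall {W : List (S → Bool)} (hW : W ≠ []) {α : Type*} (l : List α)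
    (f : α → S → Bool) (h : ∀ a ∈ l, Adds W (f a)) : Adds W (fun s => l.all fun a => f a s) := by
  induction l with
  | nil => simpa using Adds.tt hW
  | cons a l ih =>
      simp only [List.all_cons]
      exact (h a (by simp)).and (ih fun b hb => h b (by simp [hb]))

theorem Adds.exists {W : List (S → Bool)} (hW : W ≠ []) {α : Type*} (l : List α)
    (f : α → S → Bool) (h : ∀ a ∈ l, Adds W (f a)) : Adds W (fun s => l.any fun a => f a s) := by
  induction l with
  | nil => simpa using Adds.ff hW
  | cons a l ih =>
      simp only [List.any_cons]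
      exact (h a (by simp)).or (ih fun b hb => h b (by simp [hb]))

/-- `W` separates the states. -/
def Sep (W : List (S → Bool)) : Prop := ∀ s s', enc W s = enc W s' → s = s'

theorem Adds.of_sep [Finite S] {W : List (S → Bool)} (hW : W ≠ []) (hs : Sep W) (β : S → Bool) :
    Adds W β := by
  classical
  have := Fintype.ofFinite S
  have h := Adds.exists hW ((Finset.univ.filter fun s₀ => β s₀ = true).toList)
    (fun s₀ s => W.all fun w => w s == w s₀)
    (fun s₀ _ => Adds.forall hW W (fun w s => w s == w s₀) fun w hw => (Adds.mem hw).eqv _)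
  have he : (fun s => ((Finset.univ.filter fun s₀ => β s₀ = true).toList).any
      fun s₀ => W.all fun w => w s == w s₀) = β := by
    funext s
    have key : ∀ s₀, (W.all fun w => w s == w s₀) = true ↔ s = s₀ := by
      intro s₀
      constructor
      · intro h
        apply hs
        simp only [List.all_eq_true, beq_iff_eq] at h
        exact List.map_congr_left h
      · rintro rfl
        simp
    rw [Bool.eq_iff_iff, List.any_eq_true]
    constructor
    · rintro ⟨s₀, h1, h2⟩
      rw [key] at h2
      subst h2
      simpa using h1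
    · intro h
      exact ⟨s, by simpa using h, by rw [key]⟩
  rw [he] at h
  exact h

/-- Adding all wires of `W'` in front of `W`. -/
theorem RE.add_all [Finite S] {W : List (S → Bool)} (hW : W ≠ []) (hs : Sep W)
    (W' : List (S → Bool)) : RE W (W' ++ W) := by
  induction W' with
  | nil => exact RE.refl _
  | cons β W' ih =>
      have e1 : (W' ++ W).Perm (W ++ W') := List.perm_append_comm
      have := (ih.trans (RE.perm e1)).trans (Adds.of_sep hW hs β W')
      exact this.trans (RE.perm (e1.symm.cons β))

/-- The re-encoding theorem. -/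
theorem RE.of_sep [Finite S] {W W' : List (S → Bool)} (hW : W ≠ []) (hs : Sep W) (hW' : W' ≠ [])
    (hs' : Sep W') : RE W W' :=
  ((RE.add_all hW hs W').trans (RE.perm List.perm_append_comm)).trans
    (RE.add_all hW' hs' W).symm

end Pool.Agent.ElemPCP
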