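import Mathlib
import Pool.Agent.Lib.MP_b4537c_lc.Wires

set_option autoImplicit false

/-!
The insertion pass and the detection pass.
-/

namespace Pool.Agent.ElemPCP

/-! ### Insertion -/

theorem good_marked {ι α : Type*} {f : ι → α} (hf : Function.Injective f) (t : ι → List α) (i₀ : ι)
    (ht : ∀ i, i ≠ i₀ → t i = []) : Good (fun i => f i :: t i) where
  des := by
    refine ⟨f, by simp, ?_⟩
    intro i j hij h1 h2
    by_cases hj : j = i₀
    · have := ht i (fun h => hij (h.trans hj.symm))
      rw [this] at h2
      simp at h2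
      exact hij (hf h2).symm
    · rw [ht j hj] at h1
      simp at h1
      exact hij (hf h1)
  pre := by
    intro i j hij
    rw [List.cons_prefix_cons] at hij
    exact hf hij.1

/-- Letters of the insertion pass. -/
def insS (k : ℕ) : Option Bool ⊕ ((Fin k × Bool) ⊕ Bool) → Ltr
  | Sum.inl none => Ltr.L
  | Sum.inl (some false) => Ltr.R
  | Sum.inl (some true) => Ltr.z
  | Sum.inr (Sum.inl (j, b)) => Ltr.bit j b
  | Sum.inr (Sum.inr b) => Ltr.bit k b

theorem insS_inj (k : ℕ) : Function.Injective (insS k) := by
  intro x y h
  rcases x with (_ | (_ | _)) | ⟨j, b⟩ | b <;> rcases y with (_ | (_ | _)) | ⟨j', b'⟩ | b' <;>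
    simp only [insS, reduceCtorEq, Ltr.bit.injEq] at h <;> try rfl
  · obtain ⟨h1, rfl⟩ := h
    rw [Fin.ext h1]
  · exact absurd h.1 (by omega)
  · exact absurd h.1 (by omega)
  · obtain ⟨-, rfl⟩ := h
    rfl

/-- The pass inserting the cell `n ++ [false]` after every cell whose last line (line `k`) is 1. -/
def insPass (k : ℕ) (n : List Bool) : Pass where
  ι := Option Bool ⊕ ((Fin k × Bool) ⊕ Bool)
  h := fun i => [insS k i]
  g := fun i => insS k i :: (match i with
    | Sum.inr (Sum.inr true) => Ltr.z :: tw 0 (n ++ [false])
    | _ => [])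
  gh := good_single (insS_inj k)
  gg := good_marked (insS_inj k) _ (Sum.inr (Sum.inr true)) (by
    rintro ((_ | (_ | _)) | ⟨j, b⟩ | (_ | _)) hi <;> simp at hi ⊢)

theorem insPass_clean (k : ℕ) (n : List Bool) : (insPass k n).Clean := by
  constructor
  · rintro ((_ | (_ | _)) | ⟨j, b⟩ | (_ | _)) <;> simp [insPass, insS]
  · rintro ((_ | (_ | _)) | ⟨j, b⟩ | (_ | _)) <;> simp [insPass, insS]
    intro h
    obtain ⟨j, b, h1, _⟩ := mem_tw h
    cases h1

theorem insPass_copy (k : ℕ) (n : List Bool) (j : ℕ) (w : List Bool) (hw : j + w.length ≤ k) :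
    (insPass k n).rel (tw j w) (tw j w) := by
  induction w generalizing j with
  | nil => exact Pass.rel_nil _
  | cons b w ih =>
      simp only [List.length_cons] at hw
      exact Pass.rel_cons
        ((insPass k n).rel_single (Sum.inr (Sum.inl (⟨j, by omega⟩, b))))
        (ih (j + 1) (by omega))

theorem insPass_rel (k : ℕ) (n : List Bool) (cs : List (List Bool × Bool))
    (hk : ∀ c ∈ cs, c.1.length = k) :
    (insPass k n).rel (lay (cs.map fun c => c.1 ++ [c.2]))
      (lay (cs.flatMap fun c => if c.2 then [c.1 ++ [true], n ++ [false]] else [c.1 ++ [false]])) := by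
  unfold lay
  refine Pass.rel_cons ((insPass k n).rel_single (Sum.inl none)) ?_
  refine Pass.rel_append ?_ ((insPass k n).rel_single (Sum.inl (some false)))
  simp only [List.flatMap_map, List.flatMap_assoc]
  refine Pass.rel_flatMap ?_
  rintro ⟨a, y⟩ hc
  have h1 : a.length = k := hk _ hc
  have s0 := (insPass k n).rel_single (Sum.inl (some true))
  have s1 := insPass_copy k n 0 a (by omega)
  have s2 := (insPass k n).rel_single (Sum.inr (Sum.inr y))
  have := Pass.rel_append s0 (Pass.rel_append s1 s2)
  cases y
  · simpa [insPass, insS, cellW, tw_append, h1] using this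
  · simpa [insPass, insS, cellW, tw_append, h1] using this

/-- Realisation of insertion. -/
theorem real_ins {S : Type} (W : List (S → Bool)) (μ : S → Bool) (n : S) (hn : μ n = false) :
    Real fun a b => ∃ C : List S, a = lay (C.map (enc (W ++ [μ]))) ∧
      b = lay ((C.flatMap fun s => if μ s then [s, n] else [s]).map (enc (W ++ [μ]))) := by
  refine Real.of_pass (insPass W.length (enc W n)) (insPass_clean _ _) ?_
  rintro a b ⟨C, rfl, rfl⟩
  have := insPass_rel W.length (enc W n) (C.map fun s => (enc W s, μ s)) (by simp)
  simp only [List.map_map, List.flatMap_map, Function.comp_def] at this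
  convert this using 2
  · apply List.map_congr_left
    intro s _
    simp
  · rw [List.map_flatMap]
    congr 1
    funext s
    by_cases h : μ s = true
    · simp [h, hn]
    · simp [h]

/-! ### Detection -/

theorem good_det_h : Good (fun i : Option Bool => match i with
    | none => [Ltr.z, Ltr.bit 0 false]
    | some false => [Ltr.L, Ltr.z, Ltr.bit 0 false]
    | some true => [Ltr.L, Ltr.z, Ltr.bit 0 true]) where
  des := ⟨fun i => match i with
    | none => Ltr.z
    | some false => Ltr.L
    | some true => Ltr.bit 0 true, by decide, by decide⟩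
  pre := by decide

theorem good_det_g : Good (fun i : Option Bool => match i with
    | none => [Ltr.z]
    | some false => [Ltr.L, Ltr.z]
    | some true => [Ltr.F, Ltr.z]) where
  des := ⟨fun i => match i with
    | none => Ltr.z
    | some false => Ltr.L
    | some true => Ltr.F, by decide, by decide⟩
  pre := by decide

/-- The detection pass for cells with `k + 1` lines. -/
def detPass (k : ℕ) : Pass where
  ι := Option Bool ⊕ Option (Fin k × Bool)
  h := Sum.elim (fun i : Option Bool => match i with
    | none => [Ltr.z, Ltr.bit 0 false]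
    | some false => [Ltr.L, Ltr.z, Ltr.bit 0 false]
    | some true => [Ltr.L, Ltr.z, Ltr.bit 0 true])
    (fun i => [match i with
      | none => Ltr.R
      | some (j, b) => Ltr.bit (j + 1) b])
  g := Sum.elim (fun i : Option Bool => match i with
    | none => [Ltr.z]
    | some false => [Ltr.L, Ltr.z]
    | some true => [Ltr.F, Ltr.z])
    (fun i => [match i with
      | none => Ltr.R
      | some (j, b) => Ltr.bit j b])
  gh := by
    refine good_det_h.sum (good_single ?_) ?_
    · rintro (_ | ⟨j, b⟩) (_ | ⟨j', b'⟩) h <;> simp at h ⊢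
      exact ⟨Fin.ext (by simpa using h.1), h.2⟩
    · rintro (_ | (_ | _)) (_ | ⟨j, c⟩) x hx hj <;> simp at hx hj <;> subst hj <;> simp at hx
  gg := by
    refine good_det_g.sum (good_single ?_) ?_
    · rintro (_ | ⟨j, b⟩) (_ | ⟨j', b'⟩) h <;> simp at h ⊢
      exact ⟨Fin.ext (by simpa using h.1), h.2⟩
    · rintro (_ | (_ | _)) (_ | ⟨j, c⟩) x hx hj <;> simp at hx hj <;> subst hj <;> simp at hx

theorem detPass_clean (k : ℕ) : ∀ i, Ltr.F ∉ (detPass k).h i := by
  rintro ((_ | (_ | _)) | (_ | ⟨j, c⟩)) <;> simp [detPass]

theorem detPass_copy (k j : ℕ) (w : List Bool) (hw : j + w.length ≤ k) :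
    (detPass k).rel (tw (j + 1) w) (tw j w) := by
  induction w generalizing j with
  | nil => exact Pass.rel_nil _
  | cons b w ih =>
      simp only [List.length_cons] at hw
      exact Pass.rel_cons
        ((detPass k).rel_single (Sum.inr (some (⟨j, by omega⟩, b))))
        (ih (j + 1) (by omega))

/-- The layer starting with the final letter. -/
def layF (bs : List (List Bool)) : List Ltr := Ltr.F :: (bs.flatMap cellW ++ [Ltr.R])

theorem detPass_rel_aux (k : ℕ) (cs : List (List Bool)) (hk : ∀ c ∈ cs, c.length = k) :
    (detPass k).rel ((cs.map fun c => false :: c).flatMap cellW ++ [Ltr.R])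
      (cs.flatMap cellW ++ [Ltr.R]) := by
  refine Pass.rel_append ?_ ((detPass k).rel_single (Sum.inr none))
  simp only [List.flatMap_map]
  refine Pass.rel_flatMap ?_
  intro a hc
  have h1 : a.length = k := hk _ hc
  have s0 := (detPass k).rel_single (Sum.inl none)
  have s1 := detPass_copy k 0 a (by omega)
  have := Pass.rel_append s0 s1
  simpa [detPass, cellW] using this

theorem detPass_rel (k : ℕ) (cs : List (List Bool)) (hk : ∀ c ∈ cs, c.length = k)
    (hne : cs ≠ []) : (detPass k).rel (lay (cs.map fun c => false :: c)) (lay cs) := by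
  cases cs with
  | nil => exact absurd rfl hne
  | cons a cs =>
      have h1 : a.length = k := hk a (by simp)
      have e := detPass_rel_aux k cs (fun c hc => hk c (by simp [hc]))
      have s0 := (detPass k).rel_single (Sum.inl (some false))
      have s1 := detPass_copy k 0 a (by omega)
      have := Pass.rel_append s0 (Pass.rel_append s1 e)
      simpa [detPass, cellW, lay] using this

theorem detPass_rel_final (k : ℕ) (a : List Bool) (cs : List (List Bool)) (ha : a.length = k)
    (hk : ∀ c ∈ cs, c.length = k) :
    (detPass k).rel (lay ((true :: a) :: cs.map fun c => false :: c)) (layF (a :: cs)) := by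
  have e := detPass_rel_aux k cs hk
  have s0 := (detPass k).rel_single (Sum.inl (some true))
  have s1 := detPass_copy k 0 a (by omega)
  have := Pass.rel_append s0 (Pass.rel_append s1 e)
  simpa [detPass, cellW, lay, layF] using this

end Pool.Agent.ElemPCP
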