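import Mathlib
import Pool.Agent.Lib.MP_b4537c_lc.Wires
import Pool.Agent.Lib.MP_b4537c_lc.Special
import Pool.Agent.Lib.MP_b4537c_lc.Special2

set_option autoImplicit false

/-!
Realisable relations between lists of cell states.
-/

namespace Pool.Agent.ElemPCP

variable {S : Type}

/-- A relation between lists of states is realised in the encoding `W`. -/
def RC (W : List (S → Bool)) (T : List S → List S → Prop) : Prop :=
  Real fun a b => ∃ C C', T C C' ∧ a = lay (C.map (enc W)) ∧ b = lay (C'.map (enc W))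

theorem RC.comp {W : List (S → Bool)} {T T' T'' : List S → List S → Prop} (h : RC W T)
    (h' : RC W T') (hT : ∀ a c, T'' a c → ∃ b, T a b ∧ T' b c) : RC W T'' := by
  refine Real.comp h h' ?_
  rintro a c ⟨A, C, hAC, rfl, rfl⟩
  obtain ⟨B, h1, h2⟩ := hT A C hAC
  exact ⟨lay (B.map (enc W)), ⟨A, B, h1, rfl, rfl⟩, ⟨B, C, h2, rfl, rfl⟩⟩

theorem RC.symm {W : List (S → Bool)} {T : List S → List S → Prop} (h : RC W T) :
    RC W (fun C C' => T C' C) := by
  refine (Real.symm h).mono ?_
  rintro a c ⟨A, C, hAC, rfl, rfl⟩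
  exact ⟨C, A, hAC, rfl, rfl⟩

theorem RC.mono {W : List (S → Bool)} {T T' : List S → List S → Prop} (h : RC W T)
    (hT : ∀ C C', T' C C' → T C C') : RC W T' := by
  refine Real.mono h ?_
  rintro a c ⟨A, C, hAC, rfl, rfl⟩
  exact ⟨A, C, hT A C hAC, rfl, rfl⟩

theorem enc_comp {D : Type} (W : List (S → Bool)) (f : D → S) (d : D) :
    enc (W.map fun w => fun d => w (f d)) d = enc W (f d) := by
  simp [enc, Function.comp_def]

/-- Bijective relabelling of cell states. -/
theorem RC.forall₂ [Finite S] {W : List (S → Bool)} (hW : W ≠ []) (hs : Sep W)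
    {R : S → S → Prop} (h1 : ∀ a b c, R a b → R a c → b = c) (h2 : ∀ a b c, R a c → R b c → a = b) :
    RC W (List.Forall₂ R) := by
  let D := {p : S × S // R p.1 p.2}
  have key : RE (W.map fun w => fun d : D => w d.1.1) (W.map fun w => fun d : D => w d.1.2) := by
    refine RE.of_sep (by simpa using hW) ?_ (by simpa using hW) ?_
    · rintro ⟨⟨a, b⟩, hab⟩ ⟨⟨c, d⟩, hcd⟩ h
      rw [enc_comp W (fun d : D => d.1.1), enc_comp W (fun d : D => d.1.1)] at h
      have h3 : a = c := hs _ _ h
      subst h3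
      have h4 : b = d := h1 _ _ _ hab hcd
      subst h4
      rfl
    · rintro ⟨⟨a, b⟩, hab⟩ ⟨⟨c, d⟩, hcd⟩ h
      rw [enc_comp W (fun d : D => d.1.2), enc_comp W (fun d : D => d.1.2)] at h
      have h3 : b = d := hs _ _ h
      subst h3
      have h4 : a = c := h2 _ _ _ hab hcd
      subst h4
      rfl
  refine Real.mono key ?_
  rintro a b ⟨C, C', hC, rfl, rfl⟩
  have : ∃ E : List D, C = E.map (fun d => d.1.1) ∧ C' = E.map (fun d => d.1.2) := by
    induction hC with
    | nil => exact ⟨[], rfl, rfl⟩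
    | cons hab _ ih =>
        obtain ⟨E, rfl, rfl⟩ := ih
        exact ⟨⟨⟨_, _⟩, hab⟩ :: E, rfl, rfl⟩
  obtain ⟨E, rfl, rfl⟩ := this
  refine ⟨E, ?_, ?_⟩
  · rw [List.map_map]
    congr 1
    apply List.map_congr_left
    intro d _
    exact (enc_comp W (fun d : D => d.1.1) d).symm
  · rw [List.map_map]
    congr 1
    apply List.map_congr_left
    intro d _
    exact (enc_comp W (fun d : D => d.1.2) d).symm

/-- Change of encoding around a realisable relation. -/
theorem RC.conj [Finite S] {W W1 W2 : List (S → Bool)} (hW : W ≠ []) (hs : Sep W) (hW1 : W1 ≠ [])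
    (hs1 : Sep W1) (hW2 : W2 ≠ []) (hs2 : Sep W2) {T : List S → List S → Prop}
    (h : Real fun a b => ∃ C C', T C C' ∧ a = lay (C.map (enc W1)) ∧ b = lay (C'.map (enc W2))) :
    RC W T := by
  refine Real.comp (RE.of_sep hW hs hW1 hs1) (Real.comp h (RE.of_sep hW2 hs2 hW hs)
    (D'' := fun a b => ∃ C C', T C C' ∧ a = lay (C.map (enc W1)) ∧ b = lay (C'.map (enc W))) ?_) ?_
  · rintro a c ⟨A, C, hAC, rfl, rfl⟩
    exact ⟨_, ⟨A, C, hAC, rfl, rfl⟩, ⟨C, rfl, rfl⟩⟩
  · rintro a c ⟨A, C, hAC, rfl, rfl⟩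
    exact ⟨_, ⟨A, rfl, rfl⟩, ⟨A, C, hAC, rfl, rfl⟩⟩

/-- Insertion of a cell with state `n` after every cell whose state satisfies `μ`. -/
theorem RC.ins [Finite S] {W : List (S → Bool)} (hW : W ≠ []) (hs : Sep W) (μ : S → Bool) (n : S)
    (hn : μ n = false) :
    RC W (fun C C' => C' = C.flatMap fun s => if μ s then [s, n] else [s]) := by
  have hs' : Sep (W ++ [μ]) := by
    intro s s' h
    rw [enc_append, enc_append] at h
    exact hs _ _ (List.append_inj h (by simp)).1
  refine RC.conj hW hs (by simp) hs' (by simp) hs' ?_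
  refine (real_ins W μ n hn).mono ?_
  rintro a b ⟨C, C', rfl, rfl, rfl⟩
  exact ⟨C, rfl, rfl⟩

/-- There are separating wires vanishing at a given point. -/
theorem exists_sep (X : Type) [Finite X] (x0 : X) : ∃ W : List (X → Bool), W ≠ [] ∧ Sep W ∧
    enc W x0 = List.replicate W.length false := by
  classical
  have := Fintype.ofFinite X
  refine ⟨(fun _ => false) :: ((Finset.univ.filter fun x : X => x ≠ x0).toList.map
    fun x y => decide (y = x)), by simp, ?_, ?_⟩
  · intro s s' h
    by_contra hne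
    have key : ∀ x : X, x ≠ x0 → decide (s = x) = decide (s' = x) := by
      intro x hx
      have h2 := List.map_inj_left.1 h (fun y => decide (y = x))
        (List.mem_cons_of_mem _ (List.mem_map.2 ⟨x, by simp [hx], rfl⟩))
      exact h2
    by_cases h0 : s = x0
    · have := key s' (fun h => hne (h0.trans h.symm))
      simp [hne] at this
    · have := key s h0
      simp at this
      exact hne this.symm
  · rw [List.eq_replicate_iff]
    refine ⟨by simp, ?_⟩
    intro b hb
    simp only [enc, List.map_cons, List.map_map, List.mem_cons, List.mem_map,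
      Finset.mem_toList, Finset.mem_filter, Finset.mem_univ, true_and, Function.comp] at hb
    rcases hb with rfl | ⟨x, hx, rfl⟩
    · rfl
    · simpa using fun h => hx h.symm

variable {X Y : Type}

/-- `C'` is obtained from `C` by shifting the component `mv` to the right, keeping `st`. -/
def ShR (st : S → X) (mv : S → Y) (y0 : Y) : Y → List S → List S → Prop
  | y, [], [] => y = y0
  | y, s :: C, s' :: C' => st s' = st s ∧ mv s' = y ∧ ShR st mv y0 (mv s) C C'
  | _, [], _ :: _ => False
  | _, _ :: _, [] => False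

theorem shv_shR (st : S → X) (mv : S → Y) (y0 : Y) (WX : List (X → Bool)) (WY : List (Y → Bool)) :
    ∀ (C C' : List S) (y : Y), ShR st mv y0 y C C' →
      shv (enc WY y) (C.map fun s => (enc WX (st s), enc WY (mv s))) =
        C'.map (fun s => enc WY (mv s) ++ enc WX (st s)) ∧
      outV (enc WY y) (C.map fun s => (enc WX (st s), enc WY (mv s))) = enc WY y0
  | [], [], y, h => by
      simp only [ShR] at h
      subst h
      exact ⟨rfl, rfl⟩
  | [], _ :: _, y, h => by simp [ShR] at h
  | _ :: _, [], y, h => by simp [ShR] at h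
  | s :: C, s' :: C', y, h => by
      simp only [ShR] at h
      obtain ⟨h1, h2, h3⟩ := h
      obtain ⟨h4, h5⟩ := shv_shR st mv y0 WX WY C C' (mv s) h3
      simp only [List.map_cons, shv, outV]
      rw [h4, h5, h1, h2]
      exact ⟨rfl, rfl⟩

/-- Shifting a component to the next cell. -/
theorem RC.shR [Finite S] [Finite X] [Finite Y] {W : List (S → Bool)} (hW : W ≠ []) (hs : Sep W)
    (st : S → X) (mv : S → Y) (y0 : Y) (hst : ∀ s s', st s = st s' → mv s = mv s' → s = s') :
    RC W (fun C C' => C ≠ [] ∧ ShR st mv y0 y0 C C') := by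
  classical
  by_cases hX : Nonempty X
  swap
  · refine Real.refl.mono ?_
    rintro a b ⟨C, C', ⟨hC, -⟩, -, -⟩
    cases C with
    | nil => exact absurd rfl hC
    | cons s C => exact absurd ⟨st s⟩ hX
  obtain ⟨x0⟩ := hX
  obtain ⟨WX, hX1, hX2, -⟩ := exists_sep X x0
  obtain ⟨WY, hY1, hY2, hY3⟩ := exists_sep Y y0
  set WX' : List (S → Bool) := WX.map fun w => fun s => w (st s)
  set WY' : List (S → Bool) := WY.map fun w => fun s => w (mv s)
  have eX : ∀ s, enc WX' s = enc WX (st s) := fun s => enc_comp WX st s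
  have eY : ∀ s, enc WY' s = enc WY (mv s) := fun s => enc_comp WY mv s
  have hs1 : Sep (WX' ++ WY') := by
    intro s s' h
    rw [enc_append, enc_append] at h
    obtain ⟨h1, h2⟩ := List.append_inj h (by simp)
    rw [eX, eX] at h1
    rw [eY, eY] at h2
    exact hst _ _ (hX2 _ _ h1) (hY2 _ _ h2)
  have hs2 : Sep (WY' ++ WX') := by
    intro s s' h
    rw [enc_append, enc_append] at h
    obtain ⟨h1, h2⟩ := List.append_inj h (by simp)
    rw [eX, eX] at h2
    rw [eY, eY] at h1
    exact hst _ _ (hX2 _ _ h2) (hY2 _ _ h1)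
  refine RC.conj hW hs (W1 := WX' ++ WY') (by simp [WX', hX1]) hs1 (W2 := WY' ++ WX')
    (by simp [WX', hX1]) hs2 ?_
  refine (real_shv WY.length WX.length).mono ?_
  rintro a b ⟨C, C', ⟨hC, hCC⟩, rfl, rfl⟩
  obtain ⟨h1, h2⟩ := shv_shR st mv y0 WX WY C C' y0 hCC
  rw [hY3] at h1 h2
  refine ⟨C.map fun s => (enc WX (st s), enc WY (mv s)), by simpa using hC, ?_, h2, ?_, ?_⟩
  · simp
  · congr 1
    rw [List.map_map]
    apply List.map_congr_left
    intro s _
    simp only [enc_append, eX, eY, Function.comp]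
  · rw [h1]
    congr 1
    apply List.map_congr_left
    intro s _
    simp only [enc_append, eX, eY]

theorem ShR.refl (st : S → X) (mv : S → Y) (y0 : Y) (C : List S) (h : ∀ s ∈ C, mv s = y0) :
    ShR st mv y0 y0 C C := by
  induction C with
  | nil => rfl
  | cons s C ih =>
      have h1 := h s (by simp)
      refine ⟨rfl, h1, ?_⟩
      rw [h1]
      exact ih fun s hs => h s (by simp [hs])

theorem ShR.pre_app (st : S → X) (mv : S → Y) (y0 : Y) (A C C' : List S)
    (h : ∀ s ∈ A, mv s = y0) (hC : ShR st mv y0 y0 C C') : ShR st mv y0 y0 (A ++ C) (A ++ C') := by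
  induction A with
  | nil => exact hC
  | cons s A ih =>
      have h1 := h s (by simp)
      refine ⟨rfl, h1, ?_⟩
      rw [h1]
      exact ih fun s hs => h s (by simp [hs])

theorem ShR.move (st : S → X) (mv : S → Y) (y0 : Y) (A B : List S) (s t s' t' : S)
    (hA : ∀ s ∈ A, mv s = y0) (hB : ∀ s ∈ B, mv s = y0) (h1 : st s' = st s) (h2 : mv s' = y0)
    (h3 : st t' = st t) (h4 : mv t' = mv s) (h5 : mv t = y0) :
    ShR st mv y0 y0 (A ++ s :: t :: B) (A ++ s' :: t' :: B) := by
  refine ShR.pre_app st mv y0 A _ _ hA ?_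
  refine ⟨h1, h2, h3, h4, ?_⟩
  rw [h5]
  exact ShR.refl st mv y0 B hB

end Pool.Agent.ElemPCP
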