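import Mathlib

set_option autoImplicit false

/-!
Reversible insertion machines: a single token moves over a list of cells, the local rule is injective,
and the machine may insert a fresh cell to the right of the token (moving onto it).
-/

namespace Pool.Agent.ElemPCP

/-- Direction of movement of a token. -/
inductive Mv
  | l | s | r
  deriving DecidableEq

/-- A reversible insertion machine. -/
structure RIM where
  Cell : Type
  Tok : Type
  [fc : Fintype Cell]
  [ft : Fintype Tok]
  [dc : DecidableEq Cell]
  [dt : DecidableEq Tok]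
  φ : Cell × Tok → Option (Cell × Tok)
  φ_inj : ∀ x x' y, φ x = some y → φ x' = some y → x = x'
  dir : Tok → Mv
  ins : Tok → Bool
  ins_dir : ∀ τ, ins τ = true → dir τ = Mv.r
  fresh : Cell

attribute [instance] RIM.fc RIM.ft RIM.dc RIM.dt

/-- A configuration: cells to the left of the token (nearest first), the cell of the token,
the token, cells to the right (nearest first). -/
structure RIM.Cfg (R : RIM) where
  ls : List R.Cell
  c : R.Cell
  τ : R.Tok
  rs : List R.Cell

/-- One step of the machine. -/
inductive RIM.Step (R : RIM) : R.Cfg → R.Cfg → Prop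
  | ins {ls c τ rs c' τ'} : R.φ (c, τ) = some (c', τ') → R.ins τ' = true →
      RIM.Step R ⟨ls, c, τ, rs⟩ ⟨c' :: ls, R.fresh, τ', rs⟩
  | right {ls c τ n rs c' τ'} : R.φ (c, τ) = some (c', τ') → R.ins τ' = false → R.dir τ' = Mv.r →
      RIM.Step R ⟨ls, c, τ, n :: rs⟩ ⟨c' :: ls, n, τ', rs⟩
  | left {l ls c τ rs c' τ'} : R.φ (c, τ) = some (c', τ') → R.dir τ' = Mv.l →
      RIM.Step R ⟨l :: ls, c, τ, rs⟩ ⟨ls, l, τ', c' :: rs⟩
  | stay {ls c τ rs c' τ'} : R.φ (c, τ) = some (c', τ') → R.dir τ' = Mv.s →
      RIM.Step R ⟨ls, c, τ, rs⟩ ⟨ls, c', τ', rs⟩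

/-- A configuration is halted when the local rule is undefined. -/
def RIM.Halted (R : RIM) (C : R.Cfg) : Prop := R.φ (C.c, C.τ) = none

/-- The machine halts when started in `C`. -/
def RIM.Halts (R : RIM) (C : R.Cfg) : Prop :=
  ∃ D, Relation.ReflTransGen R.Step C D ∧ R.Halted D

/-- Every configuration reachable from `C` is halted or has a successor. -/
def RIM.Progress (R : RIM) (C : R.Cfg) : Prop :=
  ∀ D, Relation.ReflTransGen R.Step C D → R.Halted D ∨ ∃ E, R.Step D E

end Pool.Agent.ElemPCP
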