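import Mathlib
import Pool.Agent.Lib.MP_b4537c_lc.Config
import Pool.Agent.Lib.MP_b4537c_lc.RIM

set_option autoImplicit false

/-!
The program of one period: one step of a reversible insertion machine (forward for positive tokens,
backward for negative tokens), reversal of halted tokens, detection of the initial configuration.
-/

namespace Pool.Agent.ElemPCP

/-- State of a cell: content and possibly a signed token. -/
abbrev St (R : RIM) : Type := R.Cell × Option (Bool × R.Tok)

variable {R : RIM}

/-- Cell without token. -/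
def nt (c : R.Cell) : St R := (c, none)

/-- The list of cell states of a configuration, the token having sign `sg`. -/
def toL (sg : Bool) (C : R.Cfg) : List (St R) :=
  C.ls.reverse.map nt ++ (C.c, some (sg, C.τ)) :: C.rs.map nt

/-- The cell carries a token of sign `sg`. -/
def HasSg (sg : Bool) (s : St R) : Prop := ∃ τ, s.2 = some (sg, τ)

theorem not_hasSg_nt (sg : Bool) (c : R.Cell) : ¬ HasSg sg (nt c) := by
  rintro ⟨τ, h⟩
  simp [nt] at h

/-- Forward steps of positive tokens. -/
def Fwd (R : RIM) (C C' : List (St R)) : Prop :=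
  (∃ D D', R.Step D D' ∧ C = toL true D ∧ C' = toL true D') ∨
    (C = C' ∧ C ≠ [] ∧ ∀ s ∈ C, ¬ HasSg true s)

def phiR (R : RIM) (s s' : St R) : Prop :=
  (∃ c τ c' τ', s = (c, some (true, τ)) ∧ s' = (c', some (true, τ')) ∧
    R.φ (c, τ) = some (c', τ')) ∨ (s' = s ∧ ¬ HasSg true s)

theorem phiR_fun (a b c : St R) (h1 : phiR R a b) (h2 : phiR R a c) : b = c := by
  rcases h1 with ⟨x, τ, x', τ', rfl, rfl, h1⟩ | ⟨rfl, h1⟩ <;>
    rcases h2 with ⟨y, σ, y', σ', h3, rfl, h2⟩ | ⟨rfl, h2⟩
  · obtain ⟨rfl, h4⟩ := Prod.mk.injEq .. ▸ h3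
    obtain rfl : τ = σ := by simpa using h4
    rw [h1] at h2
    simp at h2
    rw [h2.1, h2.2]
  · exact absurd ⟨τ, rfl⟩ h2
  · exact absurd ⟨σ, by rw [h3]⟩ h1
  · rfl

theorem phiR_inj (a b c : St R) (h1 : phiR R a c) (h2 : phiR R b c) : a = b := by
  rcases h1 with ⟨x, τ, x', τ', rfl, rfl, h1⟩ | ⟨rfl, h1⟩ <;>
    rcases h2 with ⟨y, σ, y', σ', rfl, h3, h2⟩ | ⟨rfl, h2⟩
  · obtain ⟨rfl, h4⟩ := Prod.mk.injEq .. ▸ h3
    obtain rfl : τ' = σ' := by simpa using h4
    have := R.φ_inj _ _ _ h1 h2
    simp at this
    rw [this.1, this.2]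
  · exact absurd ⟨τ', rfl⟩ h2
  · exact absurd ⟨σ', by rw [h3]⟩ h1
  · rfl

/-- Trigger of insertion. -/
def muR (R : RIM) (s : St R) : Bool :=
  match s.2 with
  | some (true, τ) => R.ins τ
  | _ => false

/-- Static part of a state when the positive tokens with direction `m` move. -/
def stM (m : Mv) (s : St R) : St R :=
  match s.2 with
  | some (true, τ) => if R.dir τ = m then (s.1, none) else s
  | _ => s

/-- Moving part. -/
def mvM (m : Mv) (s : St R) : Option R.Tok :=
  match s.2 with
  | some (true, τ) => if R.dir τ = m then some τ else none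
  | _ => none

theorem stM_mvM (m : Mv) (s s' : St R) (h1 : stM m s = stM m s') (h2 : mvM m s = mvM m s') :
    s = s' := by
  rcases s with ⟨c, _ | ⟨_ | _, τ⟩⟩ <;> rcases s' with ⟨c', _ | ⟨_ | _, τ'⟩⟩ <;>
    simp only [stM, mvM] at h1 h2 <;> (try split_ifs at h1 h2) <;> simp_all

theorem mvM_eq_none {m : Mv} {s : St R} (h : ¬ HasSg true s) : mvM m s = none := by
  rcases s with ⟨c, _ | ⟨_ | _, τ⟩⟩
  · rfl
  · rfl
  · exact absurd ⟨τ, rfl⟩ h

theorem muR_eq_false {s : St R} (h : ¬ HasSg true s) : muR R s = false := by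
  rcases s with ⟨c, _ | ⟨_ | _, τ⟩⟩
  · rfl
  · rfl
  · exact absurd ⟨τ, rfl⟩ h

theorem forall₂_mid {T : Type*} {P : T → T → Prop} {A B : List T} {x y : T}
    (hA : ∀ s ∈ A, P s s) (hxy : P x y) (hB : ∀ s ∈ B, P s s) :
    List.Forall₂ P (A ++ x :: B) (A ++ y :: B) := by
  have hr : ∀ B : List T, (∀ s ∈ B, P s s) → List.Forall₂ P B B := by
    intro B
    induction B with
    | nil => intro _; exact List.Forall₂.nil
    | cons b B ih =>
        intro h
        exact List.Forall₂.cons (h b (by simp)) (ih fun s hs => h s (by simp [hs]))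
  exact List.rel_append (hr A hA) (List.Forall₂.cons hxy (hr B hB))

theorem forall₂_refl' {T : Type*} {P : T → T → Prop} {B : List T} (h : ∀ s ∈ B, P s s) :
    List.Forall₂ P B B := by
  induction B with
  | nil => exact List.Forall₂.nil
  | cons b B ih =>
      exact List.Forall₂.cons (h b (by simp)) (ih fun s hs => h s (by simp [hs]))

theorem flatMap_triv {T : Type*} {μ : T → Bool} {n : T} {B : List T} (h : ∀ s ∈ B, μ s = false) :
    (B.flatMap fun s => if μ s then [s, n] else [s]) = B := by
  induction B with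
  | nil => rfl
  | cons b B ih =>
      simp only [List.flatMap_cons]
      rw [ih fun s hs => h s (by simp [hs]), h b (by simp)]
      rfl

theorem mem_nt {B : List R.Cell} {s : St R} (h : s ∈ B.map nt) (sg : Bool) : ¬ HasSg sg s := by
  obtain ⟨c, -, rfl⟩ := List.mem_map.1 h
  exact not_hasSg_nt sg c

theorem phiR_refl {s : St R} (h : ¬ HasSg true s) : phiR R s s := Or.inr ⟨rfl, h⟩

theorem real_fwd (R : RIM) {W : List (St R → Bool)} (hW : W ≠ []) (hs : Sep W) :
    RC W (Fwd R) := by
  have t1 := RC.forall₂ hW hs (R := phiR R) phiR_fun phiR_inj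
  have t2 := RC.ins hW hs (muR R) (nt R.fresh) rfl
  have t3 := RC.shR hW hs (stM (R := R) Mv.r) (mvM Mv.r) none (stM_mvM _)
  have t4 := (RC.shR hW hs (stM (R := R) Mv.l) (mvM Mv.l) none (stM_mvM _)).symm
  refine RC.comp t1 (RC.comp t2 (RC.comp t3 t4
    (T'' := fun C C' => ∃ C3, (C ≠ [] ∧ ShR (stM (R := R) Mv.r) (mvM Mv.r) none none C C3) ∧
      (C' ≠ [] ∧ ShR (stM (R := R) Mv.l) (mvM Mv.l) none none C' C3)) (fun a c h => h))
    (T'' := fun C C' => ∃ C2, C2 = (C.flatMap fun s => if muR R s then [s, nt R.fresh] else [s]) ∧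
      ∃ C3, (C2 ≠ [] ∧ ShR (stM (R := R) Mv.r) (mvM Mv.r) none none C2 C3) ∧
      (C' ≠ [] ∧ ShR (stM (R := R) Mv.l) (mvM Mv.l) none none C' C3)) (fun a c h => h)) ?_
  rintro C C' (⟨D, D', hD, rfl, rfl⟩ | ⟨rfl, h1, h2⟩)
  · cases hD with
    | @ins ls c τ rs c' τ' h1 h2 =>
        have hA : ∀ s ∈ (ls.reverse.map nt : List (St R)), ¬ HasSg true s := fun s hs => mem_nt hs _
        have hB : ∀ s ∈ (rs.map nt : List (St R)), ¬ HasSg true s := fun s hs => mem_nt hs _
        have hd := R.ins_dir _ h2
        have e : toL true (⟨c' :: ls, R.fresh, τ', rs⟩ : R.Cfg) =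
            ls.reverse.map nt ++ nt c' :: (R.fresh, some (true, τ')) :: rs.map nt := by
          simp [toL]
        refine ⟨ls.reverse.map nt ++ (c', some (true, τ')) :: rs.map nt, ?_,
          ls.reverse.map nt ++ (c', some (true, τ')) :: nt R.fresh :: rs.map nt, ?_,
          toL true ⟨c' :: ls, R.fresh, τ', rs⟩, ⟨by simp, ?_⟩, ⟨by simp [toL], ?_⟩⟩
        · exact forall₂_mid (fun s hs => phiR_refl (hA s hs))
            (Or.inl ⟨c, τ, c', τ', rfl, rfl, h1⟩) (fun s hs => phiR_refl (hB s hs))
        · rw [List.flatMap_append, List.flatMap_cons,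
            flatMap_triv fun s hs => muR_eq_false (hA s hs),
            flatMap_triv fun s hs => muR_eq_false (hB s hs)]
          simp [muR, h2]
        · rw [e]
          refine ShR.move _ _ _ _ _ _ _ _ _ (fun s hs => mvM_eq_none (hA s hs))
            (fun s hs => mvM_eq_none (hB s hs)) ?_ ?_ ?_ ?_ ?_ <;> simp [stM, mvM, nt, hd]
        · refine ShR.refl _ _ _ _ ?_
          rw [e]
          intro s hs
          simp only [List.mem_append, List.mem_cons] at hs
          rcases hs with hs | rfl | rfl | hs
          · exact mvM_eq_none (hA s hs)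
          · rfl
          · simp [mvM, hd]
          · exact mvM_eq_none (hB s hs)
    | @right ls c τ n rs c' τ' h1 h2 h3 =>
        have hA : ∀ s ∈ (ls.reverse.map nt : List (St R)), ¬ HasSg true s := fun s hs => mem_nt hs _
        have hB : ∀ s ∈ (rs.map nt : List (St R)), ¬ HasSg true s := fun s hs => mem_nt hs _
        have e : toL true (⟨c' :: ls, n, τ', rs⟩ : R.Cfg) =
            ls.reverse.map nt ++ nt c' :: (n, some (true, τ')) :: rs.map nt := by
          simp [toL]
        refine ⟨ls.reverse.map nt ++ (c', some (true, τ')) :: nt n :: rs.map nt, ?_,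
          ls.reverse.map nt ++ (c', some (true, τ')) :: nt n :: rs.map nt, ?_,
          toL true ⟨c' :: ls, n, τ', rs⟩, ⟨by simp, ?_⟩, ⟨by simp [toL], ?_⟩⟩
        · refine forall₂_mid (fun s hs => phiR_refl (hA s hs))
            (Or.inl ⟨c, τ, c', τ', rfl, rfl, h1⟩) (B := nt n :: rs.map nt) (fun s hs => ?_)
          rcases List.mem_cons.1 hs with rfl | hs
          · exact phiR_refl (not_hasSg_nt _ _)
          · exact phiR_refl (hB s hs)
        · rw [List.flatMap_append, List.flatMap_cons,
            flatMap_triv fun s hs => muR_eq_false (hA s hs), List.flatMap_cons,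
            flatMap_triv fun s hs => muR_eq_false (hB s hs)]
          simp [muR, h2, nt]
        · rw [e]
          refine ShR.move _ _ _ _ _ _ _ _ _ (fun s hs => mvM_eq_none (hA s hs))
            (fun s hs => mvM_eq_none (hB s hs)) ?_ ?_ ?_ ?_ ?_ <;> simp [stM, mvM, nt, h3]
        · refine ShR.refl _ _ _ _ ?_
          rw [e]
          intro s hs
          simp only [List.mem_append, List.mem_cons] at hs
          rcases hs with hs | rfl | rfl | hs
          · exact mvM_eq_none (hA s hs)
          · rfl
          · simp [mvM, h3]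
          · exact mvM_eq_none (hB s hs)
    | @left l ls c τ rs c' τ' h1 h2 =>
        have hA : ∀ s ∈ (ls.reverse.map nt : List (St R)), ¬ HasSg true s := fun s hs => mem_nt hs _
        have hB : ∀ s ∈ (rs.map nt : List (St R)), ¬ HasSg true s := fun s hs => mem_nt hs _
        have hi : R.ins τ' = false := by
          by_contra h
          have := R.ins_dir τ' (by simpa using h)
          rw [h2] at this
          cases this
        have e0 : toL true (⟨l :: ls, c, τ, rs⟩ : R.Cfg) =
            (ls.reverse.map nt ++ [nt l]) ++ (c, some (true, τ)) :: rs.map nt := by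
          simp [toL]
        have e1 : toL true (⟨ls, l, τ', c' :: rs⟩ : R.Cfg) =
            ls.reverse.map nt ++ (l, some (true, τ')) :: nt c' :: rs.map nt := by
          simp [toL]
        have hA' : ∀ s ∈ (ls.reverse.map nt ++ [nt l] : List (St R)), ¬ HasSg true s := by
          intro s hs
          rcases List.mem_append.1 hs with hs | hs
          · exact hA s hs
          · rw [List.mem_singleton.1 hs]; exact not_hasSg_nt _ _
        refine ⟨(ls.reverse.map nt ++ [nt l]) ++ (c', some (true, τ')) :: rs.map nt, ?_,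
          (ls.reverse.map nt ++ [nt l]) ++ (c', some (true, τ')) :: rs.map nt, ?_,
          (ls.reverse.map nt ++ [nt l]) ++ (c', some (true, τ')) :: rs.map nt,
          ⟨by simp, ?_⟩, ⟨by simp [toL], ?_⟩⟩
        · rw [e0]
          exact forall₂_mid (fun s hs => phiR_refl (hA' s hs))
            (Or.inl ⟨c, τ, c', τ', rfl, rfl, h1⟩) (fun s hs => phiR_refl (hB s hs))
        · rw [List.flatMap_append, List.flatMap_cons,
            flatMap_triv fun s hs => muR_eq_false (hA' s hs),
            flatMap_triv fun s hs => muR_eq_false (hB s hs)]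
          simp [muR, hi]
        · refine ShR.refl _ _ _ _ ?_
          intro s hs
          rcases List.mem_append.1 hs with hs | hs
          · exact mvM_eq_none (hA' s hs)
          · rcases List.mem_cons.1 hs with rfl | hs
            · simp [mvM, h2]
            · exact mvM_eq_none (hB s hs)
        · rw [e1, List.append_assoc]
          refine ShR.move _ _ _ _ _ _ _ _ _ (fun s hs => mvM_eq_none (hA s hs))
            (fun s hs => mvM_eq_none (hB s hs)) ?_ ?_ ?_ ?_ ?_ <;> simp [stM, mvM, nt, h2]
    | @stay ls c τ rs c' τ' h1 h2 =>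
        have hA : ∀ s ∈ (ls.reverse.map nt : List (St R)), ¬ HasSg true s := fun s hs => mem_nt hs _
        have hB : ∀ s ∈ (rs.map nt : List (St R)), ¬ HasSg true s := fun s hs => mem_nt hs _
        have hi : R.ins τ' = false := by
          by_contra h
          have := R.ins_dir τ' (by simpa using h)
          rw [h2] at this
          cases this
        have hm : ∀ m, m ≠ Mv.s → ∀ s ∈ (ls.reverse.map nt ++ (c', some (true, τ')) :: rs.map nt :
            List (St R)), mvM m s = none := by
          intro m hm s hs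
          rcases List.mem_append.1 hs with hs | hs
          · exact mvM_eq_none (hA s hs)
          · rcases List.mem_cons.1 hs with rfl | hs
            · simp [mvM, h2, hm.symm]
            · exact mvM_eq_none (hB s hs)
        refine ⟨ls.reverse.map nt ++ (c', some (true, τ')) :: rs.map nt, ?_,
          ls.reverse.map nt ++ (c', some (true, τ')) :: rs.map nt, ?_,
          ls.reverse.map nt ++ (c', some (true, τ')) :: rs.map nt,
          ⟨by simp, ?_⟩, ⟨by simp [toL], ?_⟩⟩
        · exact forall₂_mid (fun s hs => phiR_refl (hA s hs))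
            (Or.inl ⟨c, τ, c', τ', rfl, rfl, h1⟩) (fun s hs => phiR_refl (hB s hs))
        · rw [List.flatMap_append, List.flatMap_cons,
            flatMap_triv fun s hs => muR_eq_false (hA s hs),
            flatMap_triv fun s hs => muR_eq_false (hB s hs)]
          simp [muR, hi]
        · exact ShR.refl _ _ _ _ (hm _ (by simp))
        · exact ShR.refl _ _ _ _ (hm _ (by simp))
  · refine ⟨C, forall₂_refl' fun s hs => phiR_refl (h2 s hs), C, ?_, C, ⟨h1, ?_⟩, ⟨h1, ?_⟩⟩
    · rw [flatMap_triv fun s hs => muR_eq_false (h2 s hs)]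
    · exact ShR.refl _ _ _ _ fun s hs => mvM_eq_none (h2 s hs)
    · exact ShR.refl _ _ _ _ fun s hs => mvM_eq_none (h2 s hs)

end Pool.Agent.ElemPCP
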