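import Mathlib
import Pool.Agent.Lib.MP_b4537c_lc.Period

set_option autoImplicit false

/-!
The program of one period, continued.
-/

namespace Pool.Agent.ElemPCP

theorem RC.invol {S : Type} [Finite S] {W : List (S → Bool)} (hW : W ≠ []) (hs : Sep W) (f : S → S)
    (hf : ∀ s, f (f s) = s) : RC W (fun C C' => C' = C.map f) := by
  refine (RC.forall₂ hW hs (R := fun s s' => s' = f s) ?_ ?_).mono ?_
  · rintro a b c rfl rfl; rfl
  · intro a b c h1 h2
    rw [← hf a, ← hf b, ← h1, ← h2]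
  · rintro C C' rfl
    induction C with
    | nil => exact List.Forall₂.nil
    | cons c C ih => exact List.Forall₂.cons rfl ih

variable {R : RIM}

/-- Sign change. -/
def fl (s : St R) : St R := (s.1, s.2.map fun p => (!p.1, p.2))

theorem fl_fl (s : St R) : fl (fl s) = s := by
  rcases s with ⟨c, _ | ⟨b, τ⟩⟩ <;> simp [fl]

theorem toL_fl (sg : Bool) (D : R.Cfg) : (toL sg D).map fl = toL (!sg) D := by
  simp [toL, fl, nt, Function.comp_def]
  rfl

/-- Backward steps of negative tokens. -/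
def Bwd (R : RIM) (C C' : List (St R)) : Prop :=
  (∃ D D', R.Step D D' ∧ C = toL false D' ∧ C' = toL false D) ∨
    (C = C' ∧ C ≠ [] ∧ ∀ s ∈ C, ¬ HasSg false s)

theorem real_bwd (R : RIM) {W : List (St R → Bool)} (hW : W ≠ []) (hs : Sep W) :
    RC W (Bwd R) := by
  have t1 := RC.invol hW hs (fl (R := R)) fl_fl
  have t2 := (real_fwd R hW hs).symm
  refine RC.comp t1 (RC.comp t2 t1 (T'' := fun C C' => ∃ C2, Fwd R C2 C ∧ C' = C2.map fl)
    (fun a c h => h)) ?_
  rintro C C' (⟨D, D', hD, rfl, rfl⟩ | ⟨rfl, h1, h2⟩)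
  · refine ⟨_, rfl, toL true D, Or.inl ⟨D, D', hD, rfl, ?_⟩, ?_⟩
    · rw [toL_fl]; rfl
    · rw [toL_fl]; rfl
  · refine ⟨_, rfl, C.map fl, Or.inr ⟨rfl, by simpa using h1, ?_⟩, ?_⟩
    · intro s hs
      obtain ⟨t, ht, rfl⟩ := List.mem_map.1 hs
      rintro ⟨τ, hτ⟩
      refine h2 t ht ⟨τ, ?_⟩
      rcases t with ⟨c, _ | ⟨b, σ⟩⟩ <;> simp [fl] at hτ ⊢
      exact hτ
    · simp [List.map_map, Function.comp_def, fl_fl]

/-- Reversal of halted tokens. -/
def rho (R : RIM) (s : St R) : St R :=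
  match s.2 with
  | some (b, τ) => if R.φ (s.1, τ) = none then (s.1, some (!b, τ)) else s
  | none => s

theorem rho_rho (s : St R) : rho R (rho R s) = s := by
  rcases s with ⟨c, _ | ⟨b, τ⟩⟩
  · rfl
  · by_cases h : R.φ (c, τ) = none <;> simp [rho, h]

theorem rho_nt (c : R.Cell) : rho R (nt c) = nt c := rfl

open Classical in
theorem toL_rho (D : R.Cfg) : (toL (decide (R.Halted D)) D).map (rho R) = toL false D := by
  by_cases h : R.Halted D
  · have h' : R.φ (D.c, D.τ) = none := h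
    simp [toL, h, rho, nt, Function.comp_def, h']
    rfl
  · have h' : ¬ R.φ (D.c, D.τ) = none := h
    simp [toL, h, rho, nt, Function.comp_def, h']
    rfl

theorem toL_rho_true (D : R.Cfg) (h : ¬ R.Halted D) : (toL true D).map (rho R) = toL true D := by
  have h' : ¬ R.φ (D.c, D.τ) = none := h
  simp [toL, rho, nt, Function.comp_def, h']
  rfl

theorem step_not_halted {D D' : R.Cfg} (h : R.Step D D') : ¬ R.Halted D := by
  intro h0
  unfold RIM.Halted at h0
  cases h <;> simp_all

theorem toL_ne_nil (sg : Bool) (D : R.Cfg) : toL sg D ≠ [] := by simp [toL]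

theorem toL_hasSg {sg : Bool} {D : R.Cfg} {s : St R} (hs : s ∈ toL sg D) : ¬ HasSg (!sg) s := by
  simp only [toL, List.mem_append, List.mem_cons] at hs
  rcases hs with hs | rfl | hs
  · exact mem_nt hs _
  · rintro ⟨τ, h⟩
    simp at h
  · exact mem_nt hs _

/-- The combined relation before detection. -/
def Pre (R : RIM) (C C' : List (St R)) : Prop := ∃ C2, Fwd R (C.map (rho R)) C2 ∧ Bwd R C2 C'

theorem real_pre (R : RIM) {W : List (St R → Bool)} (hW : W ≠ []) (hs : Sep W) :
    RC W (Pre R) := by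
  refine RC.comp (RC.invol hW hs (rho R) rho_rho) (RC.comp (real_fwd R hW hs) (real_bwd R hW hs)
    (T'' := fun C C' => ∃ C2, Fwd R C C2 ∧ Bwd R C2 C') (fun a c h => h)) ?_
  rintro C C' ⟨C2, h1, h2⟩
  exact ⟨_, rfl, C2, h1, h2⟩

theorem pre_forward {D D' : R.Cfg} (h : R.Step D D') : Pre R (toL true D) (toL true D') := by
  refine ⟨toL true D', Or.inl ⟨D, D', h, ?_, rfl⟩, Or.inr ⟨rfl, toL_ne_nil _ _, fun s hs => ?_⟩⟩
  · exact toL_rho_true D (step_not_halted h)
  · exact toL_hasSg hs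

open Classical in
theorem pre_backward {D D' : R.Cfg} (h : R.Step D D') :
    Pre R (toL (decide (R.Halted D')) D') (toL false D) := by
  refine ⟨toL false D', Or.inr ⟨toL_rho D', ?_, ?_⟩, Or.inl ⟨D, D', h, rfl, rfl⟩⟩
  · rw [toL_rho]; exact toL_ne_nil _ _
  · intro s hs
    rw [toL_rho] at hs
    exact toL_hasSg (sg := false) hs

/-! ### Detection -/

/-- The state to be detected. -/
def sf (c0 : R.Cell) (τ0 : R.Tok) : St R := (c0, some (false, τ0))

open Classical in
/-- The encoding used for detection. -/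
noncomputable def Wd (W : List (St R → Bool)) (c0 : R.Cell) (τ0 : R.Tok) : List (St R → Bool) :=
  (fun s => decide (s = sf c0 τ0)) ::
    W.map fun w => fun s => w (if s = sf c0 τ0 then nt c0 else s)

theorem Wd_sep {W : List (St R → Bool)} (hs : Sep W) (c0 : R.Cell) (τ0 : R.Tok) :
    Sep (Wd W c0 τ0) := by
  classical
  intro s s' h
  unfold Wd at h
  simp only [enc_cons, List.cons.injEq, decide_eq_decide] at h
  obtain ⟨h1, h2⟩ := h
  rw [enc_comp W (fun s : St R => if s = sf c0 τ0 then nt c0 else s),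
    enc_comp W (fun s : St R => if s = sf c0 τ0 then nt c0 else s)] at h2
  have h3 := hs _ _ h2
  by_cases h4 : s = sf c0 τ0
  · rw [h4, h1.1 h4]
  · have h5 : ¬ s' = sf c0 τ0 := fun h => h4 (h1.2 h)
    simpa [h4, h5] using h3

theorem enc_Wd_ne {W : List (St R → Bool)} {c0 : R.Cell} {τ0 : R.Tok} {s : St R}
    (h : s ≠ sf c0 τ0) : enc (Wd W c0 τ0) s = false :: enc W s := by
  classical
  unfold Wd
  rw [enc_cons, enc_comp W (fun s : St R => if s = sf c0 τ0 then nt c0 else s)]
  simp [h]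

theorem enc_Wd_eq (W : List (St R → Bool)) (c0 : R.Cell) (τ0 : R.Tok) :
    enc (Wd W c0 τ0) (sf c0 τ0) = true :: enc W (nt c0) := by
  classical
  unfold Wd
  rw [enc_cons, enc_comp W (fun s : St R => if s = sf c0 τ0 then nt c0 else s)]
  simp

theorem det_ne {W : List (St R → Bool)} {c0 : R.Cell} {τ0 : R.Tok} {C : List (St R)}
    (hC : C ≠ []) (h : ∀ s ∈ C, s ≠ sf c0 τ0) :
    (detPass W.length).rel (lay (C.map (enc (Wd W c0 τ0)))) (lay (C.map (enc W))) := by
  have e : C.map (enc (Wd W c0 τ0)) = (C.map (enc W)).map fun c => false :: c := by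
    rw [List.map_map]
    apply List.map_congr_left
    intro s hs
    exact enc_Wd_ne (h s hs)
  rw [e]
  refine detPass_rel _ _ ?_ (by simpa using hC)
  intro c hc
  obtain ⟨s, _, rfl⟩ := List.mem_map.1 hc
  simp

theorem det_final (W : List (St R → Bool)) (c0 : R.Cell) (τ0 : R.Tok) (rs : List R.Cell) :
    (detPass W.length).rel (lay ((toL false (⟨[], c0, τ0, rs⟩ : R.Cfg)).map (enc (Wd W c0 τ0))))
      (layF ((nt c0 :: rs.map nt : List (St R)).map (enc W))) := by
  have e : (toL false (⟨[], c0, τ0, rs⟩ : R.Cfg)).map (enc (Wd W c0 τ0)) =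
      (true :: enc W (nt c0)) :: ((rs.map nt : List (St R)).map (enc W)).map fun c => false :: c := by
    simp only [toL, List.reverse_nil, List.map_nil, List.nil_append, List.map_cons, List.map_map]
    congr 1
    · exact enc_Wd_eq W c0 τ0
    · apply List.map_congr_left
      intro s _
      refine enc_Wd_ne ?_
      simp [nt, sf]
  rw [e]
  refine detPass_rel_final _ _ _ (by simp) ?_
  intro c hc
  obtain ⟨s, _, rfl⟩ := List.mem_map.1 hc
  simp

/-- The layer of a configuration. -/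
def layC (W : List (St R → Bool)) (sg : Bool) (D : R.Cfg) : List Ltr :=
  lay ((toL sg D).map (enc W))

open Classical in
/-- The program of one period. -/
theorem exists_period (R : RIM) (c0 : R.Cell) (τ0 : R.Tok)
    {W : List (St R → Bool)} (hW : W ≠ []) (hs : Sep W) :
    ∃ Ps : List Pass, Ps ≠ [] ∧ (∀ P ∈ Ps, ∀ i, Ltr.F ∉ P.h i) ∧
      (∀ D D', R.Step D D' → Chain Ps (layC W true D) (layC W true D')) ∧
      (∀ D D', R.Step D D' → D.τ ≠ τ0 →
        Chain Ps (layC W (decide (R.Halted D')) D') (layC W false D)) ∧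
      (∀ rs D', R.Step ⟨[], c0, τ0, rs⟩ D' →
        Chain Ps (layC W (decide (R.Halted D')) D')
          (layF ((nt c0 :: rs.map nt : List (St R)).map (enc W)))) := by
  obtain ⟨Ps1, h1, h2⟩ := real_pre R hW hs
  obtain ⟨Ps2, h3, h4⟩ := RE.of_sep hW hs (W' := Wd W c0 τ0) (by simp [Wd]) (Wd_sep hs c0 τ0)
  have key : ∀ C C' : List (St R), Pre R C C' → ∀ b, (detPass W.length).rel
      (lay (C'.map (enc (Wd W c0 τ0)))) b →
      Chain (Ps1 ++ (Ps2 ++ [detPass W.length])) (lay (C.map (enc W))) b := by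
    intro C C' hC b hb
    refine (h2 _ _ ⟨C, C', hC, rfl, rfl⟩).append ((h4 _ _ ⟨C', rfl, rfl⟩).append ?_)
    exact ⟨b, hb, rfl⟩
  refine ⟨Ps1 ++ (Ps2 ++ [detPass W.length]), by simp, ?_, ?_, ?_, ?_⟩
  · intro P hP
    simp only [List.mem_append, List.mem_singleton] at hP
    rcases hP with hP | hP | rfl
    · exact (h1 P hP).1
    · exact (h3 P hP).1
    · exact detPass_clean _
  · intro D D' hD
    refine key _ _ (pre_forward hD) _ (det_ne (toL_ne_nil _ _) ?_)
    rintro s hs rfl
    exact toL_hasSg hs ⟨τ0, rfl⟩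
  · intro D D' hD hτD
    refine key _ _ (pre_backward hD) _ (det_ne (toL_ne_nil _ _) ?_)
    rintro s hs rfl
    simp only [toL, List.mem_append, List.mem_cons] at hs
    rcases hs with hs | hs | hs
    · exact mem_nt hs false ⟨τ0, rfl⟩
    · simp only [sf, Prod.mk.injEq, Option.some.injEq, true_and] at hs
      exact hτD hs.2.symm
    · exact mem_nt hs false ⟨τ0, rfl⟩
  · intro rs D' hD
    exact key _ _ (pre_backward hD) _ (det_final W c0 τ0 rs)

end Pool.Agent.ElemPCP
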