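import Mathlib
import Pool.Agent.Lib.MP_b4537c_lc.Period2

set_option autoImplicit false

/-!
The pair of morphisms built from the program of one period.
-/

namespace Pool.Agent.ElemPCP

/-- Letters of the target alphabet: start mark, end mark, tagged letters. -/
abbrev TL : Type := Bool ⊕ (ℕ × Ltr)

/-- Tagging a word by a time. -/
def tag (t : ℕ) (a : List Ltr) : List TL := a.map fun x => Sum.inr (t, x)

theorem tag_inj_letter (t : ℕ) : Function.Injective (fun x : Ltr => (Sum.inr (t, x) : TL)) := by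
  intro x y h
  simpa using h

/-- Rules of the total system. -/
abbrev Idx (Ps : List Pass) : Type := Bool ⊕ (Σ t : Fin Ps.length, (Ps.get t).ι)

instance (Ps : List Pass) (t : Fin Ps.length) : Fintype (Ps.get t).ι := (Ps.get t).fin

/-- First morphism. -/
def tH (Ps : List Pass) (Z : List Ltr) : Idx Ps → List TL
  | Sum.inl false => [Sum.inl false]
  | Sum.inl true => tag 0 Z ++ [Sum.inl true]
  | Sum.inr ⟨t, i⟩ => tag t ((Ps.get t).h i)

/-- Second morphism. -/
def tG (Ps : List Pass) (A : List Ltr) : Idx Ps → List TL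
  | Sum.inl false => Sum.inl false :: tag 0 A
  | Sum.inl true => [Sum.inl true]
  | Sum.inr ⟨t, i⟩ => tag ((t + 1) % Ps.length) ((Ps.get t).g i)

theorem Good.sigma {T : Type} {ι : T → Type} {x : ∀ t, ι t → List Ltr} (h : ∀ t, Good (x t))
    {f : T → ℕ} (hf : Function.Injective f) :
    Good (fun p : Σ t, ι t => tag (f p.1) (x p.1 p.2)) where
  des := by
    choose σ h1 h2 using fun t => (h t).des
    refine ⟨fun p => Sum.inr (f p.1, σ p.1 p.2), ?_, ?_⟩
    · rintro ⟨t, i⟩
      exact List.mem_map_of_mem (h1 t i)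
    · rintro ⟨t, i⟩ ⟨t', j⟩ hij h3 h4
      obtain ⟨y, hy, hy'⟩ := List.mem_map.1 h3
      simp only [Sum.inr.injEq, Prod.mk.injEq] at hy'
      obtain rfl : t' = t := hf hy'.1
      obtain rfl := hy'.2
      obtain ⟨z, hz, hz'⟩ := List.mem_map.1 h4
      simp only [Sum.inr.injEq, Prod.mk.injEq, true_and] at hz'
      subst hz'
      exact h2 t' i j (fun h => hij (by rw [h])) hy hz
  pre := by
    rintro ⟨t, i⟩ ⟨t', j⟩ hij
    obtain ⟨y, hy⟩ := List.exists_mem_of_ne_nil _ ((h t).ne_nil i)
    have := hij.subset (List.mem_map_of_mem (f := fun x => (Sum.inr (f t, x) : TL)) hy)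
    obtain ⟨z, hz, hz'⟩ := List.mem_map.1 this
    simp only [Sum.inr.injEq, Prod.mk.injEq] at hz'
    obtain rfl : t' = t := hf hz'.1
    have := (List.prefix_map_iff_of_injective (tag_inj_letter (f t'))).1 hij
    rw [(h t').pre i j this]

theorem Good.add {κ α : Type} {y : κ → List α} (hy : Good y) {b : Bool → List α} (d : Bool → α)
    (h1 : ∀ i, d i ∈ b i) (h2 : ∀ i j, d i ∉ y j) (h3 : ∀ i, d i ∉ b (!i))
    (h4 : ∀ i j, ¬ b i <+: y j) (h5 : ∀ i j, ¬ y j <+: b i) (h6 : ∀ i, ¬ b i <+: b (!i)) :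
    Good (Sum.elim b y) where
  des := by
    obtain ⟨σ, h7, h8⟩ := hy.des
    refine ⟨Sum.elim d σ, ?_, ?_⟩
    · rintro (i | i)
      · exact h1 i
      · exact h7 i
    · rintro (i | i) (j | j) hij h9 h10
      · have : j = !i := by
          cases i <;> cases j <;> simp_all
        subst this
        exact h3 i h9
      · exact h2 i j h9
      · exact h2 j i h10
      · exact h8 i j (fun h => hij (by rw [h])) h9 h10
  pre := by
    rintro (i | i) (j | j) hij
    · by_cases h : i = j
      · rw [h]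
      · have : j = !i := by
          cases i <;> cases j <;> simp_all
        subst this
        exact absurd hij (h6 i)
    · exact absurd hij (h4 i j)
    · exact absurd hij (h5 j i)
    · exact congrArg _ (hy.pre i j hij)

theorem prefix_head {α : Type} {a b : α} {l m : List α} (h : a :: l <+: b :: m) : a = b :=
  (List.cons_prefix_cons.1 h).1

theorem not_prefix_tag {x : TL} {l : List TL} {t : ℕ} {a : List Ltr}
    (h : ∀ y ∈ a, (Sum.inr (t, y) : TL) ≠ x) : ¬ (x :: l) <+: tag t a := by
  intro hp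
  have : x ∈ tag t a := hp.subset (by simp)
  obtain ⟨y, hy, hy'⟩ := List.mem_map.1 this
  exact h y hy hy'

theorem not_tag_prefix {x : TL} {l : List TL} {t : ℕ} {a : List Ltr} (ha : a ≠ [])
    (h : ∀ y ∈ a, (Sum.inr (t, y) : TL) ≠ x) : ¬ tag t a <+: (x :: l) := by
  cases a with
  | nil => exact absurd rfl ha
  | cons y a =>
      intro hp
      exact h y (by simp) (prefix_head hp)

theorem good_tH (Ps : List Pass) (hF : ∀ P ∈ Ps, ∀ i, Ltr.F ∉ P.h i) (Z : List Ltr) :
    Good (tH Ps (Ltr.F :: Z)) := by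
  have h1 : Good (fun p : Σ t : Fin Ps.length, (Ps.get t).ι => tag p.1 ((Ps.get p.1).h p.2)) :=
    Good.sigma (fun t => (Ps.get t).gh) (f := fun t : Fin Ps.length => (t : ℕ)) Fin.val_injective
  have h2 := h1.add (b := fun i => if i then tag 0 (Ltr.F :: Z) ++ [Sum.inl true] else [Sum.inl false])
    (fun i => Sum.inl i) (by rintro (_ | _) <;> simp) (by
      rintro i ⟨t, j⟩ h
      obtain ⟨y, -, hy⟩ := List.mem_map.1 h
      cases hy) (by rintro (_ | _) <;> simp [tag]) ?_ ?_ ?_
  · convert h2 using 1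
    funext i
    rcases i with (_ | _) | ⟨t, i⟩ <;> rfl
  · rintro (_ | _) ⟨t, j⟩
    · exact not_prefix_tag (by simp)
    · refine not_prefix_tag (x := Sum.inr (0, Ltr.F)) (l := tag 0 Z ++ [Sum.inl true]) ?_
      intro y hy h
      simp only [Sum.inr.injEq, Prod.mk.injEq] at h
      exact hF _ (List.get_mem Ps t) j (h.2 ▸ hy)
  · rintro (_ | _) ⟨t, j⟩
    · exact not_tag_prefix ((Ps.get t).gh.ne_nil j) (by simp)
    · refine not_tag_prefix (x := Sum.inr (0, Ltr.F)) (l := tag 0 Z ++ [Sum.inl true])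
        ((Ps.get t).gh.ne_nil j) ?_
      intro y hy h
      simp only [Sum.inr.injEq, Prod.mk.injEq] at h
      exact hF _ (List.get_mem Ps t) j (h.2 ▸ hy)
  · rintro (_ | _) h
    · exact absurd (prefix_head h) (by simp)
    · exact absurd (prefix_head h) (by simp)

theorem succ_mod_inj (n : ℕ) : Function.Injective (fun t : Fin n => ((t : ℕ) + 1) % n) := by
  intro a b h
  simp only at h
  have ha := a.2
  have hb := b.2
  apply Fin.ext
  rcases Nat.lt_or_ge (a + 1) n with h1 | h1 <;> rcases Nat.lt_or_ge (b + 1) n with h2 | h2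
  · rw [Nat.mod_eq_of_lt h1, Nat.mod_eq_of_lt h2] at h; omega
  · have : (b : ℕ) + 1 = n := by omega
    rw [Nat.mod_eq_of_lt h1, this, Nat.mod_self] at h; omega
  · have : (a : ℕ) + 1 = n := by omega
    rw [Nat.mod_eq_of_lt h2, this, Nat.mod_self] at h; omega
  · omega

theorem good_tG (Ps : List Pass) (A : List Ltr) : Good (tG Ps A) := by
  have h1 : Good (fun p : Σ t : Fin Ps.length, (Ps.get t).ι =>
      tag (((p.1 : ℕ) + 1) % Ps.length) ((Ps.get p.1).g p.2)) :=
    Good.sigma (fun t => (Ps.get t).gg) (f := fun t : Fin Ps.length => ((t : ℕ) + 1) % Ps.length)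
      (succ_mod_inj _)
  have h2 := h1.add (b := fun i => if i then [Sum.inl true] else Sum.inl false :: tag 0 A)
    (fun i => Sum.inl i) (by rintro (_ | _) <;> simp) (by
      rintro i ⟨t, j⟩ h
      obtain ⟨y, -, hy⟩ := List.mem_map.1 h
      cases hy) (by rintro (_ | _) <;> simp [tag]) ?_ ?_ ?_
  · convert h2 using 1
    funext i
    rcases i with (_ | _) | ⟨t, i⟩ <;> rfl
  · rintro (_ | _) ⟨t, j⟩ <;> exact not_prefix_tag (by simp)
  · rintro (_ | _) ⟨t, j⟩ <;> exact not_tag_prefix ((Ps.get t).gg.ne_nil j) (by simp)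
  · rintro (_ | _) h
    · exact absurd (prefix_head h) (by simp)
    · exact absurd (prefix_head h) (by simp)

/-! ### Runs -/

section Runs

variable {I : Type} {α : Type} (H G : I → List α)

/-- One block of letters read. -/
def Next (x y : List α) : Prop := ∃ u : List I, u ≠ [] ∧ u.flatMap H = x ∧ u.flatMap G = y

def NextN : ℕ → List α → List α → Prop
  | 0, x, y => x = y
  | k + 1, x, z => ∃ y, Next H G x y ∧ NextN k y z

variable {H G}

theorem NextN.trans {k l : ℕ} {x y z : List α} (h1 : NextN H G k x y) (h2 : NextN H G l y z) :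
    NextN H G (k + l) x z := by
  induction k generalizing x with
  | zero => cases h1; simpa using h2
  | succ k ih =>
      obtain ⟨w, hw, h1⟩ := h1
      rw [Nat.succ_add]
      exact ⟨w, hw, ih h1⟩

theorem NextN.sound (hH : Good H) {n : ℕ} {x y : List α} (h : NextN H G n x y) (w : List I)
    (hw : w.length < n) (he : w.flatMap H = x ++ w.flatMap G) : False := by
  induction n generalizing x w with
  | zero => simp at hw
  | succ n ih =>
      obtain ⟨z, ⟨u, hu, rfl, rfl⟩, h⟩ := h
      obtain ⟨v, rfl, hv⟩ := hH.split u w _ he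
      refine ih h v ?_ ?_
      · rw [List.length_append] at hw
        have := List.length_pos_of_ne_nil hu
        omega
      · rw [← hv, List.flatMap_append]

theorem NextN.complete {n : ℕ} {x y : List α} (h : NextN H G n x y) :
    ∃ U : List I, U.flatMap H ++ y = x ++ U.flatMap G := by
  induction n generalizing x with
  | zero => cases h; exact ⟨[], by simp⟩
  | succ n ih =>
      obtain ⟨z, ⟨u, hu, rfl, rfl⟩, h⟩ := h
      obtain ⟨U, hU⟩ := ih h
      exact ⟨u ++ U, by simp only [List.flatMap_append, List.append_assoc, hU]⟩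

end Runs

theorem rel_ne_nil {P : Pass} {a b : List Ltr} (h : P.rel a b) (ha : a ≠ []) : b ≠ [] := by
  obtain ⟨u, rfl, rfl⟩ := h
  cases u with
  | nil => simp at ha
  | cons i u =>
      intro h
      simp only [List.flatMap_cons, List.append_eq_nil_iff] at h
      exact P.gg.ne_nil i h.1

theorem chain_run (Ps : List Pass) (A Z : List Ltr) (k t : ℕ) (htk : t + k = Ps.length)
    {a b : List Ltr} (h : Chain (Ps.drop t) a b) (ha : a ≠ []) :
    NextN (tH Ps Z) (tG Ps A) k (tag (t % Ps.length) a) (tag 0 b) := by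
  induction k generalizing t a with
  | zero =>
      have ht : t = Ps.length := by omega
      subst ht
      rw [List.drop_length] at h
      cases h
      rw [Nat.mod_self]
      rfl
  | succ k ih =>
      have ht : t < Ps.length := by omega
      rw [List.drop_eq_getElem_cons ht] at h
      obtain ⟨c, hc, h⟩ := h
      refine ⟨tag ((t + 1) % Ps.length) c, ?_, ih (t + 1) (by omega) h (rel_ne_nil hc ha)⟩
      obtain ⟨u, hu1, hu2⟩ := hc
      refine ⟨u.map fun i => Sum.inr ⟨⟨t, ht⟩, i⟩, ?_, ?_, ?_⟩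
      · rintro hu
        simp only [List.map_eq_nil_iff] at hu
        subst hu
        exact ha hu1.symm
      · rw [Nat.mod_eq_of_lt ht, ← hu1, tag, List.map_flatMap, List.flatMap_map]
        rfl
      · rw [← hu2, tag, List.map_flatMap, List.flatMap_map]
        rfl

theorem chain_run' (Ps : List Pass) (A Z : List Ltr) {a b : List Ltr} (h : Chain Ps a b)
    (ha : a ≠ []) : NextN (tH Ps Z) (tG Ps A) Ps.length (tag 0 a) (tag 0 b) := by
  have := chain_run Ps A Z Ps.length 0 (by simp) (a := a) (b := b) (by simpa using h) ha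
  simpa using this

variable {R : RIM}

theorem layC_ne_nil (W : List (St R → Bool)) (sg : Bool) (D : R.Cfg) : layC W sg D ≠ [] := by
  simp [layC, lay]

theorem transGen_tok {c0 : R.Cell} {τ0 : R.Tok} (hτ : ∀ x c', R.φ x ≠ some (c', τ0))
    {C D : R.Cfg} (h : Relation.TransGen R.Step C D) : D.τ ≠ τ0 := by
  have key : ∀ B, R.Step B D → D.τ ≠ τ0 := by
    intro B hB
    cases hB with
    | ins h1 _ => rintro rfl; exact hτ _ _ h1
    | right h1 _ _ => rintro rfl; exact hτ _ _ h1
    | left h1 _ => rintro rfl; exact hτ _ _ h1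
    | stay h1 _ => rintro rfl; exact hτ _ _ h1
  cases h with
  | single h => exact key _ h
  | tail _ h => exact key _ h

theorem halts_iff (R : RIM) (c0 : R.Cell) (τ0 : R.Tok) (h0 : R.φ (c0, τ0) ≠ none)
    (hτ : ∀ x c', R.φ x ≠ some (c', τ0)) :
    ∃ (W : List (St R → Bool)) (Ps : List Pass), (∀ P ∈ Ps, ∀ i, Ltr.F ∉ P.h i) ∧
      ∀ rs : List R.Cell, R.Progress ⟨[], c0, τ0, rs⟩ →
        (R.Halts ⟨[], c0, τ0, rs⟩ ↔ ∃ w : List (Idx Ps),
          w.flatMap (tH Ps (layF ((nt c0 :: rs.map nt : List (St R)).map (enc W)))) =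
            tag 0 (layC W true ⟨[], c0, τ0, rs⟩) ++
              w.flatMap (tG Ps (layC W true ⟨[], c0, τ0, rs⟩))) := by
  classical
  obtain ⟨W, hW, hs, -⟩ := exists_sep (St R) (nt c0)
  obtain ⟨Ps, hPs, hF, p1, p2, p3⟩ := exists_period R c0 τ0 hW hs
  refine ⟨W, Ps, hF, ?_⟩
  intro rs hprog
  set C0 : R.Cfg := ⟨[], c0, τ0, rs⟩ with hC0
  set A := layC W true C0 with hA
  set Z := layF ((nt c0 :: rs.map nt : List (St R)).map (enc W)) with hZ
  have hlen : 0 < Ps.length := List.length_pos_of_ne_nil hPs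
  have fwd : ∀ D, Relation.ReflTransGen R.Step C0 D →
      ∃ k, NextN (tH Ps Z) (tG Ps A) k (tag 0 A) (tag 0 (layC W true D)) := by
    intro D hD
    induction hD with
    | refl => exact ⟨0, rfl⟩
    | tail _ h ih =>
        obtain ⟨k, hk⟩ := ih
        exact ⟨_, hk.trans (chain_run' Ps A Z (p1 _ _ h) (layC_ne_nil _ _ _))⟩
  have bwd : ∀ D, Relation.TransGen R.Step C0 D →
      ∃ k, NextN (tH Ps Z) (tG Ps A) k (tag 0 (layC W (decide (R.Halted D)) D)) (tag 0 Z) := by
    intro D hD
    induction hD with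
    | single h => exact ⟨_, chain_run' Ps A Z (p3 rs _ h) (layC_ne_nil _ _ _)⟩
    | @tail B D hB h ih =>
        obtain ⟨k, hk⟩ := ih
        have hB1 : ¬ R.Halted B := step_not_halted h
        have hB2 : decide (R.Halted B) = false := by simpa using hB1
        rw [hB2] at hk
        exact ⟨_, (chain_run' Ps A Z (p2 _ _ h (transGen_tok (c0 := c0) hτ hB))
          (layC_ne_nil _ _ _)).trans hk⟩
  constructor
  · rintro ⟨D, hD, hhD⟩
    have hne : ¬ R.Halted C0 := h0
    have hT : Relation.TransGen R.Step C0 D := by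
      rcases Relation.reflTransGen_iff_eq_or_transGen.1 hD with rfl | h
      · exact absurd hhD hne
      · exact h
    obtain ⟨k, hk⟩ := fwd D hD
    obtain ⟨l, hl⟩ := bwd D hT
    have hd : decide (R.Halted D) = true := by simpa using hhD
    rw [hd] at hl
    obtain ⟨U, hU⟩ := (hk.trans hl).complete
    refine ⟨U ++ [Sum.inl true], ?_⟩
    simp only [List.flatMap_append, List.flatMap_cons, List.flatMap_nil, List.append_nil]
    rw [← List.append_assoc (tag 0 A), ← hU]
    simp [tH, tG]
  · rintro ⟨w, hw⟩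
    by_contra hnh
    have run : ∀ n, ∃ D, Relation.ReflTransGen R.Step C0 D ∧
        ∃ m, n ≤ m ∧ NextN (tH Ps Z) (tG Ps A) m (tag 0 A) (tag 0 (layC W true D)) := by
      intro n
      induction n with
      | zero => exact ⟨C0, Relation.ReflTransGen.refl, 0, le_rfl, rfl⟩
      | succ n ih =>
          obtain ⟨D, hD, m, hm, hN⟩ := ih
          rcases hprog D hD with h | ⟨E, hE⟩
          · exact absurd ⟨D, hD, h⟩ hnh
          · exact ⟨E, hD.tail hE, _, by omega,
              hN.trans (chain_run' Ps A Z (p1 _ _ hE) (layC_ne_nil _ _ _))⟩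
    obtain ⟨D, -, m, hm, hN⟩ := run (w.length + 1)
    exact hN.sound (good_tH Ps hF _) w (by omega) hw

end Pool.Agent.ElemPCP
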