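import Mathlib
import Pool.Agent.Lib.MP_b4537c_lc.Total
import Pool.Agent.Lib.MP_b4537c_lc.Auto

set_option autoImplicit false

/-!
Assembly: a family of reversible insertion machine inputs with undecidable halting gives the
non-existence of an algorithm for equality sets of elementary morphisms.
-/

namespace Pool.Agent.ElemPCP

/-- Codes of letters. -/
def codeL : Ltr → ℕ
  | Ltr.L => 0
  | Ltr.R => 1
  | Ltr.z => 2
  | Ltr.F => 3
  | Ltr.bit j b => 4 + 2 * j + b.toNat

theorem codeL_inj : Function.Injective codeL := by
  intro x y h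
  cases x <;> cases y <;> simp only [codeL] at h <;> try rfl
  all_goals try omega
  rename_i j b j' b'
  cases b <;> cases b' <;> simp only [Bool.toNat_true, Bool.toNat_false] at h
  · rw [show j = j' by omega]
  · omega
  · omega
  · rw [show j = j' by omega]

instance : Countable Ltr := codeL_inj.countable

theorem elem_ofFn {N : ℕ} {x : Fin N → List ℕ} (h : Good x) :
    ¬ ∃ m : ℕ, m < (List.ofFn x).length ∧ ∃ f : Fin (List.ofFn x).length → List (Fin m),
      ∃ g : Fin m → List ℕ, ∀ i : Fin (List.ofFn x).length,
        (f i).flatMap g = (List.ofFn x).getD i.val [] := by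
  rintro ⟨m, hm, f, g, hfg⟩
  refine h.elementary ⟨m, by simpa using hm, fun i => f (i.cast (by simp)), g, fun i => ?_⟩
  rw [hfg (i.cast (by simp))]
  simp [List.getD]

theorem computable_flatMap {Γ : Type} [Fintype Γ] {inp : ℕ → List Γ}
    (h : ∀ f : Γ → ℕ, Computable fun n => (inp n).map f) (T : Γ → List ℕ) :
    Computable fun n => (inp n).flatMap T := by
  classical
  let e := Fintype.equivFin Γ
  let tbl : List (List ℕ) := List.ofFn fun i => T (e.symm i)
  have h1 : Computable fun l : List ℕ => l.flatMap fun k => tbl.getD k [] := by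
    refine Primrec.to_comp (Primrec.list_flatMap Primrec.id ?_)
    exact (Primrec.list_getD []).comp (Primrec.const tbl) Primrec.snd
  refine (h1.comp (h fun g => (e g : ℕ))).of_eq ?_
  intro n
  rw [List.flatMap_map]
  congr 1
  funext g
  simp [tbl, List.getD]

section

variable {R : RIM} (Ps : List Pass) (code : TL → ℕ)

/-- The list of images. -/
noncomputable def imG (A : List Ltr) : List (List ℕ) :=
  List.ofFn fun i : Fin (Fintype.card (Idx Ps)) =>
    (tG Ps A ((Fintype.equivFin (Idx Ps)).symm i)).map code

noncomputable def imH (Z : List Ltr) : List (List ℕ) :=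
  List.ofFn fun i : Fin (Fintype.card (Idx Ps)) =>
    (tH Ps Z ((Fintype.equivFin (Idx Ps)).symm i)).map code

theorem im_flatMap {N : ℕ} {I : Type} (e : I ≃ Fin N) (x : I → List TL) (u : List I) :
    (u.map fun i => (e i : ℕ)).flatMap
      (fun a => (List.ofFn fun i : Fin N => (x (e.symm i)).map code).getD a []) =
      (u.flatMap x).map code := by
  rw [List.flatMap_map, List.map_flatMap]
  congr 1
  funext i
  simp [List.getD]

theorem exists_word {N : ℕ} {I : Type} (e : I ≃ Fin N) (w : List ℕ) (hw : ∀ a ∈ w, a < N) :
    ∃ u : List I, w = u.map fun i => (e i : ℕ) := by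
  induction w with
  | nil => exact ⟨[], rfl⟩
  | cons a w ih =>
      obtain ⟨u, hu⟩ := ih fun b hb => hw b (by simp [hb])
      exact ⟨e.symm ⟨a, hw a (by simp)⟩ :: u, by simp [← hu]⟩

end

/-- The main reduction. -/
theorem no_algorithm_of_rim (R : RIM) (c0 : R.Cell) (τ0 : R.Tok) (h0 : R.φ (c0, τ0) ≠ none)
    (hτ : ∀ x c', R.φ x ≠ some (c', τ0)) {Γ : Type} [Fintype Γ] (sym : Γ → R.Cell)
    (post : List R.Cell) (inp : ℕ → List Γ) (hinp : ∀ f : Γ → ℕ, Computable fun n => (inp n).map f)
    (hprog : ∀ n, R.Progress ⟨[], c0, τ0, (inp n).map sym ++ post⟩)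
    (hund : ¬ ComputablePred fun n => R.Halts ⟨[], c0, τ0, (inp n).map sym ++ post⟩) :
    ¬ (∃ F : List (List ℕ) × List (List ℕ) → List (List ℕ) × List ℕ,
      Computable F ∧
      ∀ G H : List (List ℕ),
        G.length = H.length →
        (¬ ∃ m : ℕ, m < G.length ∧ ∃ f : Fin G.length → List (Fin m),
            ∃ g : Fin m → List ℕ, ∀ i : Fin G.length, (f i).flatMap g = G.getD i.val []) →
        (¬ ∃ m : ℕ, m < H.length ∧ ∃ f : Fin H.length → List (Fin m),
            ∃ g : Fin m → List ℕ, ∀ i : Fin H.length, (f i).flatMap g = H.getD i.val []) →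
        ∀ w : List ℕ, (∀ a ∈ w, a < G.length) →
          (w.foldl (fun q a => ((F (G, H)).1.getD q []).getD a 0) 0 ∈ (F (G, H)).2 ↔
            w.flatMap (fun a => G.getD a []) = w.flatMap (fun a => H.getD a []))) := by
  classical
  rintro ⟨F, hF, hall⟩
  apply hund
  obtain ⟨W, Ps, hPF, hhalt⟩ := halts_iff R c0 τ0 h0 hτ
  obtain ⟨code, hcode⟩ := exists_injective_nat TL
  set rsn : ℕ → List R.Cell := fun n => (inp n).map sym ++ post with hrsn
  set An : ℕ → List Ltr := fun n => layC W true ⟨[], c0, τ0, rsn n⟩ with hAn
  set Zn : ℕ → List Ltr := fun n => layF ((nt c0 :: (rsn n).map nt : List (St R)).map (enc W))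
    with hZn
  set N := Fintype.card (Idx Ps) with hN
  set e := Fintype.equivFin (Idx Ps) with he
  let G : ℕ → List (List ℕ) := fun n => imG Ps code (An n)
  let H : ℕ → List (List ℕ) := fun n => imH Ps code (Zn n)
  -- computability
  have hbody : ∀ n, (((rsn n).map nt : List (St R)).map (enc W)).flatMap cellW =
      (inp n).flatMap (fun g => cellW (enc W (nt (sym g)))) ++
        post.flatMap (fun c => cellW (enc W (nt c))) := by
    intro n
    simp [rsn, List.flatMap_map, Function.comp_def]
  have hcA : Computable fun n => (tag 0 (An n)).map code := by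
    have h1 : ∀ n, (tag 0 (An n)).map code =
        ((tag 0 (Ltr.L :: cellW (enc W (c0, some (true, τ0))))).map code) ++
        ((inp n).flatMap (fun g => (tag 0 (cellW (enc W (nt (sym g))))).map code) ++
          (tag 0 (post.flatMap (fun c => cellW (enc W (nt c))) ++ [Ltr.R])).map code) := by
      intro n
      have h2 := hbody n
      simp only [An, layC, lay, toL, List.reverse_nil, List.map_nil, List.nil_append,
        List.map_cons, List.flatMap_cons]
      rw [h2]
      simp [tag, List.map_flatMap]
    refine Computable.of_eq ?_ (fun n => (h1 n).symm)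
    refine (Primrec.list_append.to_comp).comp (Computable.const _) ?_
    exact (Primrec.list_append.to_comp).comp (computable_flatMap hinp _) (Computable.const _)
  have hcZ : Computable fun n => (tag 0 (Zn n)).map code := by
    have h1 : ∀ n, (tag 0 (Zn n)).map code =
        ((tag 0 (Ltr.F :: cellW (enc W (nt c0)))).map code) ++
        ((inp n).flatMap (fun g => (tag 0 (cellW (enc W (nt (sym g))))).map code) ++
          (tag 0 (post.flatMap (fun c => cellW (enc W (nt c))) ++ [Ltr.R])).map code) := by
      intro n
      have h2 := hbody n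
      simp only [Zn, layF, List.map_cons, List.flatMap_cons]
      rw [h2]
      simp [tag, List.map_flatMap]
    refine Computable.of_eq ?_ (fun n => (h1 n).symm)
    refine (Primrec.list_append.to_comp).comp (Computable.const _) ?_
    exact (Primrec.list_append.to_comp).comp (computable_flatMap hinp _) (Computable.const _)
  have hcG : Computable G := by
    refine Computable.list_ofFn (f := fun (i : Fin N) n => (tG Ps (An n) (e.symm i)).map code) ?_
    intro i
    rcases e.symm i with (_ | _) | ⟨t, j⟩
    · simp only [tG, List.map_cons]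
      exact (Primrec.list_cons.to_comp).comp (Computable.const _) hcA
    · simp only [tG]
      exact Computable.const _
    · simp only [tG]
      exact Computable.const _
  have hcH : Computable H := by
    refine Computable.list_ofFn (f := fun (i : Fin N) n => (tH Ps (Zn n) (e.symm i)).map code) ?_
    intro i
    rcases e.symm i with (_ | _) | ⟨t, j⟩
    · simp only [tH]
      exact Computable.const _
    · simp only [tH, List.map_append]
      exact (Primrec.list_append.to_comp).comp hcZ (Computable.const _)
    · simp only [tH]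
      exact Computable.const _
  -- elementarity
  have hlenG : ∀ n, (G n).length = N := fun n => List.length_ofFn
  have hlenH : ∀ n, (H n).length = N := fun n => List.length_ofFn
  have helG : ∀ n, ¬ ∃ m : ℕ, m < (G n).length ∧ ∃ f : Fin (G n).length → List (Fin m),
      ∃ g : Fin m → List ℕ, ∀ i : Fin (G n).length, (f i).flatMap g = (G n).getD i.val [] := by
    intro n
    exact elem_ofFn (((good_tG Ps (An n)).map hcode).comp e.symm.injective)
  have helH : ∀ n, ¬ ∃ m : ℕ, m < (H n).length ∧ ∃ f : Fin (H n).length → List (Fin m),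
      ∃ g : Fin m → List ℕ, ∀ i : Fin (H n).length, (f i).flatMap g = (H n).getD i.val [] := by
    intro n
    exact elem_ofFn (((good_tH Ps hPF _).map hcode).comp e.symm.injective)
  -- the decision procedure
  set a0 : ℕ := (e (Sum.inl false) : ℕ) with ha0
  have hdec : ComputablePred fun n => AccR N a0 (F (G n, H n)) := by
    obtain ⟨hd, hp⟩ := primrecPred_accR N a0
    exact ⟨fun n => hd _, hp.to_comp.comp (hF.comp (hcG.pair hcH))⟩
  refine hdec.of_eq ?_
  intro n
  rw [accR_iff, hhalt (rsn n) (hprog n)]
  have key : ∀ u : List (Idx Ps),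
      ((a0 :: u.map fun i => (e i : ℕ)).flatMap (fun a => (G n).getD a []) =
        (a0 :: u.map fun i => (e i : ℕ)).flatMap (fun a => (H n).getD a []) ↔
      u.flatMap (tH Ps (Zn n)) = tag 0 (An n) ++ u.flatMap (tG Ps (An n))) := by
    intro u
    have e1 : (a0 :: u.map fun i => (e i : ℕ)) =
        (Sum.inl false :: u).map fun i => (e i : ℕ) := rfl
    rw [e1]
    have e2 := im_flatMap code e (tG Ps (An n)) (Sum.inl false :: u)
    have e3 := im_flatMap code e (tH Ps (Zn n)) (Sum.inl false :: u)
    have e4 : (List.map (fun i => (e i : ℕ)) (Sum.inl false :: u)).flatMap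
        (fun a => (G n).getD a []) = ((Sum.inl false :: u).flatMap (tG Ps (An n))).map code := e2
    have e5 : (List.map (fun i => (e i : ℕ)) (Sum.inl false :: u)).flatMap
        (fun a => (H n).getD a []) = ((Sum.inl false :: u).flatMap (tH Ps (Zn n))).map code := e3
    rw [e4, e5, (List.map_injective_iff.2 hcode).eq_iff]
    simp only [List.flatMap_cons, tG, tH, List.cons_append, List.nil_append, List.cons.injEq,
      true_and]
    exact eq_comm
  have hw0 : ∀ u : List (Idx Ps), ∀ a ∈ (a0 :: u.map fun i => (e i : ℕ)), a < (G n).length := by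
    intro u a ha
    rw [hlenG]
    rcases List.mem_cons.1 ha with rfl | ha
    · exact (e _).2
    · obtain ⟨i, -, rfl⟩ := List.mem_map.1 ha
      exact (e i).2
  constructor
  · rintro ⟨w, hw, hacc⟩
    obtain ⟨u, rfl⟩ := exists_word e w hw
    refine ⟨u, (key u).1 ?_⟩
    exact (hall (G n) (H n) ((hlenG n).trans (hlenH n).symm) (helG n) (helH n) _ (hw0 u)).1 hacc
  · rintro ⟨u, hu⟩
    refine ⟨u.map fun i => (e i : ℕ), ?_, ?_⟩
    · intro a ha
      obtain ⟨i, -, rfl⟩ := List.mem_map.1 ha
      exact (e i).2
    · exact (hall (G n) (H n) ((hlenG n).trans (hlenH n).symm) (helG n) (helH n) _ (hw0 u)).2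
        ((key u).2 hu)

end Pool.Agent.ElemPCP
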