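import Mathlib

/-!
# A fixed finite one-tape machine with an undecidable halting problem

`exists_undecidable_TM0`: there are finite types `Γ`, `Λ`, a `TM0` machine over them and a
computable family of inputs `inp n` such that halting of the machine on `inp n` is not decidable.
-/

namespace Pool.Agent.ElemPCP

open Turing

/-! ### Step 1: an undecidable `ToPartrec.Code` -/

theorem exists_toPartrec_undecidable :
    ∃ c : ToPartrec.Code, ¬ ComputablePred (fun n : ℕ => (c.eval [n]).Dom) := by
  let f : ℕ →. ℕ := fun n => (Denumerable.ofNat Nat.Partrec.Code n).eval 0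
  have hf : Partrec f :=
    Nat.Partrec.Code.eval_part.comp (Computable.ofNat Nat.Partrec.Code) (Computable.const 0)
  obtain ⟨c, hc⟩ := ToPartrec.Code.exists_code (Nat.Partrec'.part_iff₁.2 hf)
  refine ⟨c, fun h => ?_⟩
  have h1 : ∀ n : ℕ, (c.eval [n]).Dom ↔ (f n).Dom := by
    intro n
    have := hc (n ::ᵥ List.Vector.nil)
    have e : (n ::ᵥ (List.Vector.nil : List.Vector ℕ 0)).1 = [n] := rfl
    rw [e] at this
    rw [this]
    simp [Part.map_eq_map]
  have h2 : ComputablePred (fun n : ℕ => (f n).Dom) := h.of_eq h1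
  apply ComputablePred.halting_problem 0
  obtain ⟨g, hg, he⟩ := ComputablePred.computable_iff.1 h2
  refine ComputablePred.computable_iff.2 ⟨fun c => g (Encodable.encode c),
    hg.comp Computable.encode, ?_⟩
  funext c
  have := congrFun he (Encodable.encode c)
  simpa [f] using this

/-! ### Step 2: restricting a `TM0` machine to a finite supported set of labels -/

theorem TM0_restrict {Γ Λ : Type} [Inhabited Γ] [Inhabited Λ] (M : TM0.Machine Γ Λ)
    (S : Finset Λ) (hS : TM0.Supports M (↑S : Set Λ)) :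
    ∃ (Λ0 : Type) (_ : Inhabited Λ0) (_ : Fintype Λ0) (_ : DecidableEq Λ0)
      (N : TM0.Machine Γ Λ0), ∀ l, (TM0.eval N l).Dom ↔ (TM0.eval M l).Dom := by
  classical
  let Λ0 : Type := {q // q ∈ S}
  let i1 : Inhabited Λ0 := ⟨⟨default, hS.1⟩⟩
  let f₁ : PointedMap Γ Γ := ⟨id, rfl⟩
  let g₁ : PointedMap Λ Λ0 := ⟨fun q => if h : q ∈ S then ⟨q, h⟩ else default, by
    have : (default : Λ) ∈ S := hS.1
    simp only [this, dif_pos]
    rfl⟩
  let g₂ : Λ0 → Λ := Subtype.val
  have hg : ∀ q ∈ (↑S : Set Λ), g₂ (g₁ q) = q := by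
    intro q hq
    have hq' : q ∈ S := hq
    change (if h : q ∈ S then (⟨q, h⟩ : Λ0) else default).1 = q
    rw [dif_pos hq']
  refine ⟨Λ0, i1, inferInstance, inferInstance, M.map f₁ f₁ g₁ g₂, fun l => ?_⟩
  have hr := TM0.Machine.map_respects M f₁ f₁ g₁ g₂ hS (fun _ => rfl) hg
  have hi : (TM0.init l : TM0.Cfg Γ Λ).q ∈ (↑S : Set Λ) ∧
      TM0.Cfg.map f₁ g₁ (TM0.init l : TM0.Cfg Γ Λ) = (TM0.init l : TM0.Cfg Γ Λ0) := by
    refine ⟨hS.1, ?_⟩
    rw [TM0.map_init]
    congr 1
    exact List.map_id l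
  have := StateTransition.tr_eval_dom hr hi
  simpa [TM0.eval] using this

/-! ### Step 3: `TM2` to `TM0` -/

theorem TM2_to_TM0 {K : Type} [DecidableEq K] {Γ : K → Type}
    {Λ σ : Type} [Inhabited Λ] [Inhabited σ] [Fintype σ]
    (M : Λ → TM2.Stmt Γ Λ σ) (S : Finset Λ) (hS : TM2.Supports M S) :
    ∃ (Λ0 : Type) (_ : Inhabited Λ0) (_ : Fintype Λ0) (_ : DecidableEq Λ0)
      (N : TM0.Machine (TM2to1.Γ' K Γ) Λ0),
      ∀ (k : K) (L : List (Γ k)), (TM0.eval N (TM2to1.trInit k L)).Dom ↔
        (TM2.eval M k L).Dom := by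
  obtain ⟨Λ0, i1, i2, i3, N, hN⟩ := TM0_restrict (TM1to0.tr (TM2to1.tr M)) _
    (TM1to0.tr_supports (TM2to1.tr M) (TM2to1.tr_supports M hS))
  refine ⟨Λ0, i1, i2, i3, N, fun k L => ?_⟩
  rw [hN, TM1to0.tr_eval, TM2to1.tr_eval_dom]


/-! ### Step 4: the binary input is computable -/

open PartrecToTM2 in
theorem trNat_step (n : ℕ) (hn : n ≠ 0) :
    trNat n = (if n % 2 = 1 then PartrecToTM2.Γ'.bit1 else PartrecToTM2.Γ'.bit0) ::
      trNat (n / 2) := by
  have h1 : ∀ (b : Bool) (m : ℕ), ((Nat.bit b m : ℕ) : Num) = (cond b Num.bit1 Num.bit0) (m : Num) := by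
    intro b m
    rw [← Num.ofNat'_eq, ← Num.ofNat'_eq, Num.ofNat'_bit]
  have h2 : n = Nat.bit (n.bodd) (n / 2) := by
    rw [← Nat.div2_val, Nat.bit_bodd_div2]
  have h3 : n % 2 = n.bodd.toNat := by
    rw [Nat.mod_two_of_bodd]
  have key : ((n : ℕ) : Num) = (cond n.bodd Num.bit1 Num.bit0) ((n / 2 : ℕ) : Num) := by
    conv_lhs => rw [h2]
    exact h1 _ _
  unfold trNat
  rw [key]
  cases hb : n.bodd with
  | true =>
    rw [hb] at h3
    simp only [h3, Bool.toNat_true, if_true, cond_true]
    cases hm : ((n / 2 : ℕ) : Num) with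
    | zero => rfl
    | pos p => rfl
  | false =>
    rw [hb] at h3
    simp only [h3, Bool.toNat_false, cond_false]
    cases hm : ((n / 2 : ℕ) : Num) with
    | zero =>
      exfalso
      have h4 : (n / 2 : ℕ) = 0 := by
        have h5 := congrArg (fun x : Num => (x : ℕ)) hm
        simpa using h5
      have h6 : n % 2 = 0 := by simpa using h3
      omega
    | pos p => rfl

theorem primrec_trNat_map (f : PartrecToTM2.Γ' → ℕ) :
    Primrec fun n : ℕ => (PartrecToTM2.trNat n).map f := by
  let g : Unit → List (List ℕ) → Option (List ℕ) := fun _ l =>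
    some (if l.length = 0 then [] else
      (if l.length % 2 = 1 then f .bit1 else f .bit0) :: (l.getD (l.length / 2) []))
  have hlen : Primrec fun p : Unit × List (List ℕ) => p.2.length :=
    Primrec.list_length.comp Primrec.snd
  have hg : Primrec₂ g := by
    refine Primrec.option_some.comp (Primrec.ite ?_ (Primrec.const []) ?_)
    · exact Primrec.eq.comp hlen (Primrec.const 0)
    · refine Primrec.list_cons.comp (Primrec.ite ?_ (Primrec.const _) (Primrec.const _)) ?_
      · exact Primrec.eq.comp (Primrec.nat_mod.comp hlen (Primrec.const 2)) (Primrec.const 1)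
      · exact (Primrec.list_getD []).comp Primrec.snd
          (Primrec.nat_div.comp hlen (Primrec.const 2))
  have h := Primrec.nat_strong_rec (fun (_ : Unit) (n : ℕ) => (PartrecToTM2.trNat n).map f) hg
    (by
      intro _ n
      simp only [g, List.length_map, List.length_range]
      congr 1
      split_ifs with h1 h2
      · subst h1; simp
      · rw [trNat_step n h1, if_pos h2, List.map_cons]
        congr 1
        have : n / 2 < n := Nat.div_lt_self (Nat.pos_of_ne_zero h1) (by norm_num)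
        simp [List.getD, this]
      · rw [trNat_step n h1, if_neg h2, List.map_cons]
        congr 1
        have : n / 2 < n := Nat.div_lt_self (Nat.pos_of_ne_zero h1) (by norm_num)
        simp [List.getD, this])
  exact h.comp (Primrec.const ()) Primrec.id

/-- The input tapes. -/
def inp (n : ℕ) : List (TM2to1.Γ' PartrecToTM2.K' (fun _ => PartrecToTM2.Γ')) :=
  TM2to1.trInit PartrecToTM2.K'.main (PartrecToTM2.trList [n])

theorem computable_inp_map
    (f : TM2to1.Γ' PartrecToTM2.K' (fun _ => PartrecToTM2.Γ') → ℕ) :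
    Computable fun n => (inp n).map f := by
  let g : PartrecToTM2.Γ' → TM2to1.Γ' PartrecToTM2.K' (fun _ => PartrecToTM2.Γ') := fun a =>
    (false, Function.update (fun _ => none) PartrecToTM2.K'.main (some a))
  have e : ∀ n, (inp n).map f =
      f (true, (g .cons).2) :: ((PartrecToTM2.trNat n).map (f ∘ g)).reverse := by
    intro n
    have h1 : (PartrecToTM2.trList [n]).reverse = .cons :: (PartrecToTM2.trNat n).reverse := by
      simp
    unfold inp TM2to1.trInit
    rw [h1]
    change f (true, (g .cons).2) :: List.map f (List.map g (PartrecToTM2.trNat n).reverse) = _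
    rw [List.map_map, List.map_reverse]
  have h : Primrec fun n : ℕ =>
      f (true, (g .cons).2) :: ((PartrecToTM2.trNat n).map (f ∘ g)).reverse :=
    Primrec.list_cons.comp (Primrec.const _) (Primrec.list_reverse.comp (primrec_trNat_map _))
  exact h.to_comp.of_eq fun n => (e n).symm

/-! ### Step 5: assembling -/

theorem TM2_eval_dom (c : ToPartrec.Code) (n : ℕ) :
    (@TM2.eval PartrecToTM2.K' (fun _ => PartrecToTM2.Γ') PartrecToTM2.Λ'
      (Option PartrecToTM2.Γ') ⟨PartrecToTM2.trNormal c PartrecToTM2.Cont'.halt⟩ _ _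
      PartrecToTM2.tr PartrecToTM2.K'.main (PartrecToTM2.trList [n])).Dom ↔
      (c.eval [n]).Dom := by
  have h := PartrecToTM2.tr_eval c [n]
  have h1 : (@TM2.init PartrecToTM2.K' (fun _ => PartrecToTM2.Γ') PartrecToTM2.Λ'
      (Option PartrecToTM2.Γ') ⟨PartrecToTM2.trNormal c PartrecToTM2.Cont'.halt⟩ _ _
      PartrecToTM2.K'.main (PartrecToTM2.trList [n])) = PartrecToTM2.init c [n] := by
    unfold TM2.init PartrecToTM2.init
    congr 1
    funext k
    cases k <;> rfl
  unfold TM2.eval
  rw [h1, h]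
  exact Iff.rfl

instance : Fintype PartrecToTM2.K' :=
  ⟨{.main, .rev, .aux, .stack}, fun k => by cases k <;> simp⟩

theorem exists_undecidable_TM0 :
    ∃ (Γ Λ : Type) (_ : Inhabited Γ) (_ : Inhabited Λ) (_ : Fintype Γ) (_ : Fintype Λ)
      (_ : DecidableEq Γ) (_ : DecidableEq Λ)
      (M : Turing.TM0.Machine Γ Λ) (inp : ℕ → List Γ),
      (∀ f : Γ → ℕ, Computable fun n => (inp n).map f) ∧
      ¬ ComputablePred (fun n => (Turing.TM0.eval M (inp n)).Dom) := by
  classical
  obtain ⟨c, hc⟩ := exists_toPartrec_undecidable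
  obtain ⟨Λ0, i1, i2, i3, N, hN⟩ := @TM2_to_TM0 PartrecToTM2.K' _ (fun _ => PartrecToTM2.Γ')
    PartrecToTM2.Λ' (Option PartrecToTM2.Γ')
    ⟨PartrecToTM2.trNormal c PartrecToTM2.Cont'.halt⟩ _ _ PartrecToTM2.tr
    (PartrecToTM2.codeSupp c PartrecToTM2.Cont'.halt)
    (PartrecToTM2.tr_supports c PartrecToTM2.Cont'.halt)
  refine ⟨TM2to1.Γ' PartrecToTM2.K' (fun _ => PartrecToTM2.Γ'), Λ0, inferInstance, i1,
    inferInstance, i2, Classical.decEq _, i3, N, inp, computable_inp_map, fun h => hc ?_⟩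
  refine h.of_eq fun n => ?_
  exact (hN _ _).trans (TM2_eval_dom c n)

end Pool.Agent.ElemPCP
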