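import Mathlib
import Pool.Agent.Lib.MP_b4537c_lc.RIM

set_option autoImplicit false

/-!
Simulation of a Post-Turing machine (`Turing.TM0`) by a reversible insertion machine.
The history is kept as garbage cells next to the cell where the step was made.
-/

namespace Pool.Agent.ElemPCP

open Turing Relation StateTransition

section Next

/-- The deterministic step function of a reversible insertion machine. -/
def RIM.nextF (R : RIM) (C : R.Cfg) : Option R.Cfg :=
  match R.φ (C.c, C.τ) with
  | none => none
  | some (c', τ') =>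
    if R.ins τ' = true then some ⟨c' :: C.ls, R.fresh, τ', C.rs⟩
    else match R.dir τ' with
      | Mv.s => some ⟨C.ls, c', τ', C.rs⟩
      | Mv.r => match C.rs with
        | n :: rs => some ⟨c' :: C.ls, n, τ', rs⟩
        | [] => none
      | Mv.l => match C.ls with
        | l :: ls => some ⟨ls, l, τ', c' :: C.rs⟩
        | [] => none

theorem RIM.nextF_of_step (R : RIM) {C D : R.Cfg} (h : R.Step C D) : R.nextF C = some D := by
  cases h with
  | ins h1 h2 => simp [RIM.nextF, h1, h2]
  | right h1 h2 h3 => simp [RIM.nextF, h1, h2, h3]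
  | @left l ls c τ rs c' τ' h1 h2 =>
    have h3 : R.ins τ' = false := by
      by_contra h
      have := R.ins_dir τ' (by simpa using h)
      rw [h2] at this
      cases this
    simp [RIM.nextF, h1, h2, h3]
  | @stay ls c τ rs c' τ' h1 h2 =>
    have h3 : R.ins τ' = false := by
      by_contra h
      have := R.ins_dir τ' (by simpa using h)
      rw [h2] at this
      cases this
    simp [RIM.nextF, h1, h2, h3]

theorem RIM.step_of_nextF (R : RIM) {C D : R.Cfg} (h : R.nextF C = some D) : R.Step C D := by
  obtain ⟨ls, c, τ, rs⟩ := C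
  unfold RIM.nextF at h
  simp only at h
  cases hφ : R.φ (c, τ) with
  | none => rw [hφ] at h; simp at h
  | some p =>
    obtain ⟨c', τ'⟩ := p
    rw [hφ] at h
    simp only at h
    cases hi : R.ins τ' with
    | true =>
      simp only [hi, if_true, Option.some.injEq] at h
      subst h
      exact RIM.Step.ins hφ hi
    | false =>
      simp only [hi, Bool.false_eq_true, if_false] at h
      cases hd : R.dir τ' with
      | s =>
        simp only [hd, Option.some.injEq] at h
        subst h
        exact RIM.Step.stay hφ hd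
      | r =>
        cases rs with
        | nil => simp [hd] at h
        | cons n rs =>
          simp only [hd, Option.some.injEq] at h
          subst h
          exact RIM.Step.right hφ hi hd
      | l =>
        cases ls with
        | nil => simp [hd] at h
        | cons n ls =>
          simp only [hd, Option.some.injEq] at h
          subst h
          exact RIM.Step.left hφ hd

theorem RIM.step_iff (R : RIM) (C D : R.Cfg) : R.Step C D ↔ D ∈ R.nextF C :=
  ⟨fun h => R.nextF_of_step h, fun h => R.step_of_nextF h⟩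

theorem RIM.reaches_iff (R : RIM) (C D : R.Cfg) :
    ReflTransGen R.Step C D ↔ Reaches R.nextF C D := by
  have : R.Step = fun a b => b ∈ R.nextF a := by
    funext a b
    exact propext (R.step_iff a b)
  rw [this]
  rfl

theorem RIM.halts_iff (R : RIM) (C : R.Cfg) (hp : R.Progress C) :
    R.Halts C ↔ (eval R.nextF C).Dom := by
  constructor
  · rintro ⟨D, h1, h2⟩
    rw [RIM.reaches_iff] at h1
    have : D ∈ eval R.nextF C := by
      rw [mem_eval]
      refine ⟨h1, ?_⟩
      unfold RIM.Halted at h2
      simp [RIM.nextF, h2]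
    exact Part.dom_iff_mem.2 ⟨D, this⟩
  · intro h
    obtain ⟨D, hD⟩ := Part.dom_iff_mem.1 h
    rw [mem_eval] at hD
    have h1 := (RIM.reaches_iff R C D).2 hD.1
    refine ⟨D, h1, ?_⟩
    rcases hp D h1 with h2 | ⟨E, h2⟩
    · exact h2
    · have := R.nextF_of_step h2
      rw [hD.2] at this
      cases this

end Next

namespace TM0Sim

/-- Arrival variants. -/
inductive V
  | I | S | R | L | N | N'
  deriving DecidableEq, Fintype

/-- Pending operation after recording the history. -/
inductive Op
  | S | L | R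
  deriving DecidableEq, Fintype

/-- Cells. -/
inductive Cell (Γ Λ : Type)
  | lend | rend | fresh
  | sym (a : Γ)
  | gar (q : Λ) (v : V) (a : Γ)
  deriving DecidableEq, Fintype

/-- Tokens. -/
inductive Tok (Γ Λ : Type)
  | st | go
  | ex (q : Λ) (v : V)
  | wr (q : Λ) (v : V) (a : Γ)
  | bk (q : Λ) (op : Op)
  | mr (q : Λ) | ml (q : Λ) | we (q : Λ) | be (q : Λ) | wl (q : Λ)
  deriving DecidableEq, Fintype

variable {Γ Λ : Type} [Inhabited Γ] [Inhabited Λ]

/-- The symbol written by a statement. -/
def wsym (a : Γ) : TM0.Stmt Γ → Γ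
  | .move _ => a
  | .write b => b

/-- The pending operation of a statement. -/
def sop : TM0.Stmt Γ → Op
  | .move .left => .L
  | .move .right => .R
  | .write _ => .S

/-- The local rule. -/
def phi (M : TM0.Machine Γ Λ) : Cell Γ Λ × Tok Γ Λ → Option (Cell Γ Λ × Tok Γ Λ)
  | (.lend, .st) => some (.lend, .go)
  | (.sym a, .go) => some (.sym a, .ex default .I)
  | (.sym a, .ex q v) => (M q a).map fun p => (.sym (wsym a p.2), .wr q v a)
  | (.fresh, .wr q v a) => (M q a).map fun p => (.gar q v a, .bk p.1 (sop p.2))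
  | (.sym a, .bk q .S) => some (.sym a, .ex q .S)
  | (.sym a, .bk q .R) => some (.sym a, .mr q)
  | (.sym a, .bk q .L) => some (.sym a, .ml q)
  | (.gar q' v a, .mr q) => some (.gar q' v a, .mr q)
  | (.gar q' v a, .ml q) => some (.gar q' v a, .ml q)
  | (.sym a, .mr q) => some (.sym a, .ex q .R)
  | (.sym a, .ml q) => some (.sym a, .ex q .L)
  | (.rend, .mr q) => some (.sym default, .we q)
  | (.fresh, .we q) => some (.rend, .be q)
  | (.sym a, .be q) => some (.sym a, .ex q .N)
  | (.lend, .ml q) => some (.lend, .wl q)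
  | (.fresh, .wl q) => some (.sym default, .ex q .N')
  | _ => none

/-- A left inverse of the local rule. -/
def psi : Cell Γ Λ × Tok Γ Λ → Option (Cell Γ Λ × Tok Γ Λ)
  | (.lend, .go) => some (.lend, .st)
  | (.lend, .wl q) => some (.lend, .ml q)
  | (.sym a, .ex _ .I) => some (.sym a, .go)
  | (.sym a, .ex q .S) => some (.sym a, .bk q .S)
  | (.sym a, .ex q .R) => some (.sym a, .mr q)
  | (.sym a, .ex q .L) => some (.sym a, .ml q)
  | (.sym a, .ex q .N) => some (.sym a, .be q)
  | (.sym _, .ex q .N') => some (.fresh, .wl q)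
  | (.sym _, .wr q v a) => some (.sym a, .ex q v)
  | (.gar q v a, .bk _ _) => some (.fresh, .wr q v a)
  | (.sym a, .mr q) => some (.sym a, .bk q .R)
  | (.sym a, .ml q) => some (.sym a, .bk q .L)
  | (.gar q' v a, .mr q) => some (.gar q' v a, .mr q)
  | (.gar q' v a, .ml q) => some (.gar q' v a, .ml q)
  | (.sym _, .we q) => some (.rend, .mr q)
  | (.rend, .be q) => some (.fresh, .we q)
  | _ => none

theorem psi_phi (M : TM0.Machine Γ Λ) (x y : Cell Γ Λ × Tok Γ Λ) (h : phi M x = some y) :
    psi y = some x := by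
  obtain ⟨c, t⟩ := x
  cases c with
  | lend => cases t <;> simp [phi] at h <;> subst h <;> rfl
  | rend => cases t <;> simp [phi] at h <;> subst h <;> rfl
  | fresh =>
    cases t with
    | wr q v a =>
      simp only [phi, Option.map_eq_some_iff] at h
      obtain ⟨p, _, rfl⟩ := h
      rfl
    | _ => simp [phi] at h <;> subst h <;> rfl
  | sym a =>
    cases t with
    | ex q v =>
      simp only [phi, Option.map_eq_some_iff] at h
      obtain ⟨p, _, rfl⟩ := h
      rfl
    | bk q op => cases op <;> simp [phi] at h <;> subst h <;> rfl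
    | _ => simp [phi] at h <;> subst h <;> rfl
  | gar q v a => cases t <;> simp [phi] at h <;> subst h <;> rfl

/-- Direction of a token. -/
def tdir : Tok Γ Λ → Mv
  | .st => Mv.r
  | .go => Mv.r
  | .ex _ _ => Mv.s
  | .wr _ _ _ => Mv.r
  | .bk _ _ => Mv.l
  | .mr _ => Mv.r
  | .ml _ => Mv.l
  | .we _ => Mv.r
  | .be _ => Mv.l
  | .wl _ => Mv.r

/-- Insertion flag of a token. -/
def tins : Tok Γ Λ → Bool
  | .wr _ _ _ => true
  | .we _ => true
  | .wl _ => true
  | _ => false

/-- The reversible insertion machine simulating `M`. -/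
def rim [Fintype Γ] [Fintype Λ] [DecidableEq Γ] [DecidableEq Λ] (M : TM0.Machine Γ Λ) : RIM where
  Cell := Cell Γ Λ
  Tok := Tok Γ Λ
  φ := phi M
  φ_inj := fun x x' y h h' => by
    have h1 := psi_phi M x y h
    have h2 := psi_phi M x' y h'
    rw [h1] at h2
    exact Option.some.inj h2
  dir := tdir
  ins := tins
  ins_dir := fun τ h => by cases τ <;> first | rfl | (simp [tins] at h)
  fresh := .fresh

/-- Symbols on a list of cells. -/
def syms : List (Cell Γ Λ) → List Γ
  | [] => []
  | .sym a :: l => a :: syms l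
  | _ :: l => syms l

/-- Lists of symbol and garbage cells. -/
inductive Clean : List (Cell Γ Λ) → Prop
  | nil : Clean []
  | sym {l : List (Cell Γ Λ)} (a : Γ) : Clean l → Clean (.sym a :: l)
  | gar {l : List (Cell Γ Λ)} (q : Λ) (v : V) (a : Γ) : Clean l → Clean (.gar q v a :: l)

section Sim

variable [Fintype Γ] [Fintype Λ] [DecidableEq Γ] [DecidableEq Λ] (M : TM0.Machine Γ Λ)

/-- Configurations. -/
def cfg (ls : List (Cell Γ Λ)) (c : Cell Γ Λ) (τ : Tok Γ Λ) (rs : List (Cell Γ Λ)) :
    (rim M).Cfg := ⟨ls, c, τ, rs⟩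

theorem next_ins {ls rs : List (Cell Γ Λ)} {c c' : Cell Γ Λ} {τ τ' : Tok Γ Λ}
    (h : phi M (c, τ) = some (c', τ')) (h' : tins τ' = true) :
    cfg M (c' :: ls) Cell.fresh τ' rs ∈ (rim M).nextF (cfg M ls c τ rs) :=
  RIM.nextF_of_step (rim M) (RIM.Step.ins h h')

theorem next_right {ls rs : List (Cell Γ Λ)} {n c c' : Cell Γ Λ} {τ τ' : Tok Γ Λ}
    (h : phi M (c, τ) = some (c', τ')) (h' : tins τ' = false) (h'' : tdir τ' = Mv.r) :
    cfg M (c' :: ls) n τ' rs ∈ (rim M).nextF (cfg M ls c τ (n :: rs)) :=
  RIM.nextF_of_step (rim M) (RIM.Step.right h h' h'')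

theorem next_left {ls rs : List (Cell Γ Λ)} {n c c' : Cell Γ Λ} {τ τ' : Tok Γ Λ}
    (h : phi M (c, τ) = some (c', τ')) (h'' : tdir τ' = Mv.l) :
    cfg M ls n τ' (c' :: rs) ∈ (rim M).nextF (cfg M (n :: ls) c τ rs) :=
  RIM.nextF_of_step (rim M) (RIM.Step.left h h'')

theorem next_stay {ls rs : List (Cell Γ Λ)} {c c' : Cell Γ Λ} {τ τ' : Tok Γ Λ}
    (h : phi M (c, τ) = some (c', τ')) (h'' : tdir τ' = Mv.s) :
    cfg M ls c' τ' rs ∈ (rim M).nextF (cfg M ls c τ rs) :=
  RIM.nextF_of_step (rim M) (RIM.Step.stay h h'')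

/-- Main configurations. -/
def mainCfg (l : List (Cell Γ Λ)) (a : Γ) (q : Λ) (v : V) (r : List (Cell Γ Λ)) : (rim M).Cfg :=
  cfg M (l ++ [Cell.lend]) (Cell.sym a) (Tok.ex q v) (r ++ [Cell.rend])

/-- The simulation relation. -/
def Rel (A : TM0.Cfg Γ Λ) (C : (rim M).Cfg) : Prop :=
  ∃ (l r : List (Cell Γ Λ)) (a : Γ) (v : V), Clean l ∧ Clean r ∧
    C = mainCfg M l a A.q v r ∧
    A.Tape = Tape.mk' (ListBlank.mk (syms l)) (ListBlank.mk (a :: syms r))

omit [Inhabited Λ] [Fintype Γ] [Fintype Λ] [DecidableEq Γ] [DecidableEq Λ] in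
theorem mk_append_default (l : List Γ) : ListBlank.mk (l ++ [default]) = ListBlank.mk l :=
  Quotient.sound' (Or.inr ⟨1, rfl⟩)

theorem right_run (q : Λ) (r : List (Cell Γ Λ)) (hr : Clean r) :
    ∀ (l : List (Cell Γ Λ)), Clean l → ∀ (n : Cell Γ Λ) (rs : List (Cell Γ Λ)),
      n :: rs = r ++ [Cell.rend] →
      ∃ C', Reaches₁ (rim M).nextF (cfg M (l ++ [Cell.lend]) n (Tok.mr q) rs) C' ∧
        Rel M ⟨q, Tape.mk' (ListBlank.mk (syms l)) (ListBlank.mk (syms r))⟩ C' := by
  induction hr with
  | nil =>
    intro l hl n rs h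
    simp only [List.nil_append, List.cons.injEq] at h
    obtain ⟨rfl, rfl⟩ := h
    refine ⟨mainCfg M l default q V.N [], ?_, ?_⟩
    · refine TransGen.head (next_ins M (c' := Cell.sym default) (τ' := Tok.we q) rfl rfl) ?_
      refine TransGen.head (next_left M (c' := Cell.rend) (τ' := Tok.be q) rfl rfl) ?_
      exact TransGen.single (next_stay M rfl rfl)
    · refine ⟨l, [], default, V.N, hl, Clean.nil, rfl, ?_⟩
      have := mk_append_default (Γ := Γ) []
      simp only [List.nil_append] at this
      simp only [syms]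
      rw [this]
  | @sym r' a hr' _ =>
    intro l hl n rs h
    simp only [List.cons_append, List.cons.injEq] at h
    obtain ⟨rfl, rfl⟩ := h
    refine ⟨mainCfg M l a q V.R r', TransGen.single (next_stay M rfl rfl), ?_⟩
    exact ⟨l, r', a, V.R, hl, hr', rfl, rfl⟩
  | @gar r' q' v a hr' ih =>
    intro l hl n rs h
    simp only [List.cons_append, List.cons.injEq] at h
    obtain ⟨rfl, rfl⟩ := h
    obtain ⟨n', rs', h'⟩ : ∃ n' rs', n' :: rs' = r' ++ [(Cell.rend : Cell Γ Λ)] := by
      cases r' with
      | nil => exact ⟨_, _, rfl⟩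
      | cons x xs => exact ⟨_, _, rfl⟩
    obtain ⟨C', h1, h2⟩ := ih (Cell.gar q' v a :: l) (Clean.gar _ _ _ hl) n' rs' h'
    refine ⟨C', ?_, h2⟩
    rw [← h']
    exact TransGen.head (next_right M rfl rfl rfl) h1

theorem left_run (q : Λ) (l : List (Cell Γ Λ)) (hl : Clean l) :
    ∀ (r : List (Cell Γ Λ)), Clean r → ∀ (n : Cell Γ Λ) (ls : List (Cell Γ Λ)),
      n :: ls = l ++ [Cell.lend] →
      ∃ C', Reaches₁ (rim M).nextF (cfg M ls n (Tok.ml q) (r ++ [Cell.rend])) C' ∧
        Rel M ⟨q, Tape.mk' (ListBlank.mk (syms l).tail)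
          (ListBlank.mk ((syms l).headI :: syms r))⟩ C' := by
  induction hl with
  | nil =>
    intro r hr n ls h
    simp only [List.nil_append, List.cons.injEq] at h
    obtain ⟨rfl, rfl⟩ := h
    refine ⟨mainCfg M [] default q V.N' r, ?_, ?_⟩
    · refine TransGen.head (next_ins M (c' := Cell.lend) (τ' := Tok.wl q) rfl rfl) ?_
      exact TransGen.single (next_stay M rfl rfl)
    · exact ⟨[], r, default, V.N', Clean.nil, hr, rfl, rfl⟩
  | @sym l' a hl' _ =>
    intro r hr n ls h
    simp only [List.cons_append, List.cons.injEq] at h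
    obtain ⟨rfl, rfl⟩ := h
    refine ⟨mainCfg M l' a q V.L r, TransGen.single (next_stay M rfl rfl), ?_⟩
    exact ⟨l', r, a, V.L, hl', hr, rfl, rfl⟩
  | @gar l' q' v a hl' ih =>
    intro r hr n ls h
    simp only [List.cons_append, List.cons.injEq] at h
    obtain ⟨rfl, rfl⟩ := h
    obtain ⟨n', ls', h'⟩ : ∃ n' ls', n' :: ls' = l' ++ [(Cell.lend : Cell Γ Λ)] := by
      cases l' with
      | nil => exact ⟨_, _, rfl⟩
      | cons x xs => exact ⟨_, _, rfl⟩
    obtain ⟨C', h1, h2⟩ := ih (Cell.gar q' v a :: r) (Clean.gar _ _ _ hr) n' ls' h'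
    refine ⟨C', ?_, h2⟩
    rw [← h']
    exact TransGen.head (next_left M rfl rfl) h1

theorem next_main (l : List (Cell Γ Λ)) (a : Γ) (q : Λ) (v : V) (r : List (Cell Γ Λ))
    (p : Λ × TM0.Stmt Γ) (hM : M q a = some p) :
    cfg M (Cell.sym (wsym a p.2) :: (l ++ [Cell.lend])) Cell.fresh (Tok.wr q v a)
      (r ++ [Cell.rend]) ∈ (rim M).nextF (mainCfg M l a q v r) := by
  refine next_ins M ?_ rfl
  simp [phi, hM]

theorem nextF_main_none (l : List (Cell Γ Λ)) (a : Γ) (q : Λ) (v : V) (r : List (Cell Γ Λ)) :
    (rim M).nextF (mainCfg M l a q v r) = none ↔ M q a = none := by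
  constructor
  · intro h
    cases hM : M q a with
    | none => rfl
    | some p =>
      exfalso
      have := next_main M l a q v r p hM
      rw [h] at this
      cases this
  · intro h
    have hphi : (rim M).φ (Cell.sym a, Tok.ex q v) = none := by
      change phi M (Cell.sym a, Tok.ex q v) = none
      simp [phi, h]
    simp only [RIM.nextF, mainCfg, cfg]
    rw [hphi]

theorem halted_main (l : List (Cell Γ Λ)) (a : Γ) (q : Λ) (v : V) (r : List (Cell Γ Λ))
    (h : M q a = none) : (rim M).Halted (mainCfg M l a q v r) := by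
  change phi M (Cell.sym a, Tok.ex q v) = none
  simp [phi, h]

theorem respects : Respects (TM0.step M) (rim M).nextF (Rel M) := by
  rintro ⟨q, T⟩ C ⟨l, r, a, v, hl, hr, rfl, hT⟩
  simp only at hT
  subst hT
  have hstep : TM0.step M ⟨q, Tape.mk' (ListBlank.mk (syms l)) (ListBlank.mk (a :: syms r))⟩ =
      (M q a).map fun p => ⟨p.1, match p.2 with
        | TM0.Stmt.move d => (Tape.mk' (ListBlank.mk (syms l)) (ListBlank.mk (a :: syms r))).move d
        | TM0.Stmt.write b =>
          (Tape.mk' (ListBlank.mk (syms l)) (ListBlank.mk (a :: syms r))).write b⟩ := rfl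
  rw [hstep]
  cases hM : M q a with
  | none =>
    simp only [Option.map_none]
    exact (nextF_main_none M l a q v r).2 hM
  | some p =>
    obtain ⟨q', s⟩ := p
    simp only [Option.map_some]
    have e1 := next_main M l a q v r _ hM
    have e2 : cfg M (l ++ [Cell.lend]) (Cell.sym (wsym a s)) (Tok.bk q' (sop s))
          (Cell.gar q v a :: (r ++ [Cell.rend])) ∈ (rim M).nextF
        (cfg M (Cell.sym (wsym a s) :: (l ++ [Cell.lend])) Cell.fresh (Tok.wr q v a)
          (r ++ [Cell.rend])) := by
      refine next_left M ?_ rfl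
      simp [phi, hM]
    cases s with
    | write b =>
      refine ⟨mainCfg M l b q' V.S (Cell.gar q v a :: r), ?_, ?_⟩
      · refine ⟨l, Cell.gar q v a :: r, b, V.S, hl, Clean.gar _ _ _ hr, rfl, ?_⟩
        simp [syms]
      · exact TransGen.head e1 (TransGen.head e2 (TransGen.single (next_stay M rfl rfl)))
    | move d =>
      cases d with
      | right =>
        obtain ⟨C', h1, h2⟩ := right_run M q' (Cell.gar q v a :: r) (Clean.gar _ _ _ hr)
          (Cell.sym a :: l) (Clean.sym _ hl) (Cell.gar q v a) (r ++ [Cell.rend]) rfl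
        refine ⟨C', ?_, ?_⟩
        · have : (Tape.mk' (ListBlank.mk (syms l)) (ListBlank.mk (a :: syms r))).move Dir.right =
            Tape.mk' (ListBlank.mk (syms ((Cell.sym a : Cell Γ Λ) :: l)))
              (ListBlank.mk (syms (Cell.gar q v a :: r))) := by
            simp [syms]
          simp only
          rw [this]
          exact h2
        · exact TransGen.head e1 (TransGen.head e2
            (TransGen.head (next_right M rfl rfl rfl) h1))
      | left =>
        obtain ⟨n', ls', h'⟩ : ∃ n' ls', n' :: ls' = l ++ [(Cell.lend : Cell Γ Λ)] := by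
          cases l with
          | nil => exact ⟨_, _, rfl⟩
          | cons x xs => exact ⟨_, _, rfl⟩
        obtain ⟨C', h1, h2⟩ := left_run M q' l hl (Cell.sym a :: Cell.gar q v a :: r)
          (Clean.sym _ (Clean.gar _ _ _ hr)) n' ls' h'
        refine ⟨C', ?_, ?_⟩
        · have : (Tape.mk' (ListBlank.mk (syms l)) (ListBlank.mk (a :: syms r))).move Dir.left =
            Tape.mk' (ListBlank.mk (syms l).tail)
              (ListBlank.mk ((syms l).headI ::
                syms ((Cell.sym a : Cell Γ Λ) :: Cell.gar q v a :: r))) := by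
            simp [syms]
          simp only
          rw [this]
          exact h2
        · rw [← h'] at e1 e2
          exact TransGen.head e1 (TransGen.head e2
            (TransGen.head (next_left M rfl rfl) h1))

/-- The starting configuration. -/
def startCfg (l : List Γ) : (rim M).Cfg :=
  cfg M [] Cell.lend Tok.st (l.map Cell.sym ++ [Cell.sym default, Cell.rend])

omit [Inhabited Λ] [Fintype Γ] [Fintype Λ] [DecidableEq Γ] [DecidableEq Λ] in
theorem clean_map (l : List Γ) : Clean (l.map Cell.sym ++ [Cell.sym default] : List (Cell Γ Λ)) := by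
  induction l with
  | nil => exact Clean.sym _ Clean.nil
  | cons a l ih => exact Clean.sym _ ih

omit [Inhabited Λ] [Fintype Γ] [Fintype Λ] [DecidableEq Γ] [DecidableEq Λ] in
theorem syms_map (l : List Γ) :
    syms (l.map Cell.sym ++ [Cell.sym default] : List (Cell Γ Λ)) = l ++ [default] := by
  induction l with
  | nil => rfl
  | cons a l ih => simp only [List.map_cons, List.cons_append, syms, ih]

theorem start_run (l : List Γ) :
    ∃ C', Reaches (rim M).nextF (startCfg M l) C' ∧ Rel M (TM0.init l) C' := by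
  cases l with
  | nil =>
    refine ⟨mainCfg M [] default default V.I [], ?_, ?_⟩
    · exact ReflTransGen.head (next_right M rfl rfl rfl)
        (ReflTransGen.single (next_stay M rfl rfl))
    · refine ⟨[], [], default, V.I, Clean.nil, Clean.nil, rfl, ?_⟩
      have := mk_append_default (Γ := Γ) []
      simp only [List.nil_append] at this
      simp only [syms]
      rw [this]
      rfl
  | cons a l =>
    refine ⟨mainCfg M [] a default V.I (l.map Cell.sym ++ [Cell.sym default]), ?_, ?_⟩
    · refine ReflTransGen.head (next_right M (n := Cell.sym a)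
        (rs := l.map Cell.sym ++ [Cell.sym default, Cell.rend]) rfl rfl rfl) ?_
      refine ReflTransGen.single ?_
      have : (l.map Cell.sym ++ [Cell.sym default, Cell.rend] : List (Cell Γ Λ)) =
        (l.map Cell.sym ++ [Cell.sym default]) ++ [Cell.rend] := by simp
      rw [this]
      exact next_stay M rfl rfl
    · refine ⟨[], l.map Cell.sym ++ [Cell.sym default], a, V.I, Clean.nil, clean_map l, rfl, ?_⟩
      rw [syms_map]
      have := mk_append_default (a :: l)
      rw [List.cons_append] at this
      simp only [syms]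
      rw [this]
      rfl

theorem progress (l : List Γ) : (rim M).Progress (startCfg M l) := by
  intro D hD
  rw [RIM.reaches_iff] at hD
  cases hn : (rim M).nextF D with
  | some E => exact Or.inr ⟨E, RIM.step_of_nextF _ hn⟩
  | none =>
    left
    obtain ⟨C', h1, h2⟩ := start_run M l
    have hr : Reaches (rim M).nextF C' D := by
      rcases reaches_total h1 hD with h | h
      · exact h
      · rcases ReflTransGen.cases_head h with rfl | ⟨E, h3, _⟩
        · exact ReflTransGen.refl
        · exfalso
          rw [hn] at h3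
          cases h3
    obtain ⟨c₁, c₂, h3, h4, _⟩ := tr_reaches_rev (respects M) h2 hr
    have : D = c₂ := by
      rcases ReflTransGen.cases_head h3 with h | ⟨E, h5, _⟩
      · exact h
      · exfalso
        rw [hn] at h5
        cases h5
    subst this
    obtain ⟨l', r', a, v, _, _, rfl, _⟩ := h4
    exact halted_main M _ _ _ _ _ ((nextF_main_none M _ _ _ _ _).1 hn)

theorem halts_iff (l : List Γ) :
    (rim M).Halts (startCfg M l) ↔ (TM0.eval M l).Dom := by
  rw [RIM.halts_iff _ _ (progress M l)]
  obtain ⟨C', h1, h2⟩ := start_run M l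
  rw [reaches_eval h1, tr_eval_dom (respects M) h2]
  rfl

end Sim

end TM0Sim

/-- Every Post-Turing machine is simulated by a reversible insertion machine. -/
theorem exists_RIM_of_TM0 {Γ Λ : Type} [Inhabited Γ] [Inhabited Λ] [Fintype Γ] [Fintype Λ]
    [DecidableEq Γ] [DecidableEq Λ] (M : Turing.TM0.Machine Γ Λ) :
    ∃ (R : RIM) (c0 : R.Cell) (τ0 : R.Tok) (sym : Γ → R.Cell) (post : List R.Cell),
      R.φ (c0, τ0) ≠ none ∧ (∀ x c', R.φ x ≠ some (c', τ0)) ∧
      ∀ l : List Γ, R.Progress ⟨[], c0, τ0, l.map sym ++ post⟩ ∧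
        (R.Halts ⟨[], c0, τ0, l.map sym ++ post⟩ ↔ (Turing.TM0.eval M l).Dom) := by
  refine ⟨TM0Sim.rim M, TM0Sim.Cell.lend, TM0Sim.Tok.st, TM0Sim.Cell.sym,
    [TM0Sim.Cell.sym default, TM0Sim.Cell.rend], ?_, ?_, ?_⟩
  · intro h
    cases h
  · intro x c' h
    have := TM0Sim.psi_phi M x _ h
    cases c' <;> simp [TM0Sim.psi] at this
  · intro l
    exact ⟨TM0Sim.progress M l, TM0Sim.halts_iff M l⟩

end Pool.Agent.ElemPCP
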